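import Pool.Agent.R385.MC.Prim

/-!
# Prime sums on the edge: boundary values and the local extension theorem
-/

set_option autoImplicit false

namespace Pool.Agent.R385.MC

open Complex Filter Topology MeasureTheory Metric Finset Pool.Agent.W350.Edge

/-- The boundary values of the prime sum. -/
noncomputable def bv (a : ℕ → ℂ) (τ : ℝ) : ℂ := limUnder atTop (ps a τ)

lemma volume_divSet {a : ℕ → ℂ} {D : ℝ} (ha : ∀ p, ‖a p‖ ≤ D) : volume (divSet a) = 0 := by
  rw [← hausdorffMeasure_real]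
  have h := dimH_divSet a D ha
  have h1 : dimH (divSet a) < ((1 : NNReal) : ENNReal) := by
    rw [h]
    simp
  have := hausdorffMeasure_of_dimH_lt h1
  simpa using this

lemma bv_ae {a : ℕ → ℂ} {D : ℝ} (ha : ∀ p, ‖a p‖ ≤ D) :
    ∀ᵐ τ : ℝ, Tendsto (ps a τ) atTop (𝓝 (bv a τ)) := by
  have h := volume_divSet ha
  have h1 : ∀ᵐ τ : ℝ, τ ∉ divSet a := by
    rw [ae_iff]
    simpa using h
  filter_upwards [h1] with τ hτ
  have h2 : ∃ l, Tendsto (ps a τ) atTop (𝓝 l) := by
    by_contra h3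
    exact hτ h3
  exact tendsto_nhds_limUnder h2

lemma term_eq (a : ℕ → ℂ) (τ : ℝ) (p : ℕ) :
    term a τ p = cf a p * Complex.exp (-(τ * (Real.log p : ℝ)) * I) := by
  unfold term cf
  split_ifs
  · rfl
  · rw [zero_mul]

lemma ps_eq (a : ℕ → ℂ) (τ : ℝ) (x : ℕ) :
    ps a τ x = ∑ p ∈ range x, cf a p * Complex.exp (-(I * τ) * Real.log p) := by
  unfold ps
  refine sum_congr rfl fun p _ => ?_
  rw [term_eq]
  congr 2
  ring

lemma ps_continuous (a : ℕ → ℂ) (x : ℕ) : Continuous fun τ : ℝ => ps a τ x := by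
  simp_rw [ps_eq]
  fun_prop

/-- The integral of the partial sums. -/
lemma ps_integral (a : ℕ → ℂ) (x : ℕ) (α β : ℝ) :
    ∫ τ in α..β, ps a τ x = ∑ p ∈ range x, pt a p β - ∑ p ∈ range x, pt a p α := by
  have h : ∀ τ : ℝ, HasDerivAt (fun τ : ℝ => ∑ p ∈ range x, pt a p (τ : ℂ)) (ps a τ x) τ := by
    intro τ
    rw [ps_eq]
    refine HasDerivAt.fun_sum fun p _ => ?_
    exact (pt_hasDerivAt a p τ).comp_ofReal
  have h1 := intervalIntegral.integral_eq_sub_of_hasDerivAt (a := α) (b := β)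
    (f := fun τ : ℝ => ∑ p ∈ range x, pt a p (τ : ℂ)) (f' := fun τ => ps a τ x)
    (fun τ _ => h τ) ((ps_continuous a x).intervalIntegrable _ _)
  exact h1

/-- The mean square of a tail of the prime sum on an interval of length one. -/
lemma tail_mean {a : ℕ → ℂ} {D : ℝ} (hD : 0 ≤ D) (ha : ∀ p, ‖a p‖ ≤ D) {K : ℕ} (hK : 1 ≤ K)
    {x y : ℕ} (hx : Real.exp K ≤ x) (hxy : x ≤ y) (t : ℝ) :
    ∫ τ in t..(t + 1), ‖ps a τ y - ps a τ x‖ ^ 2 ≤ 144 * CC ^ 2 * D ^ 2 / K := by
  set F : Finset ℕ := (Ico x y).filter Nat.Prime with hF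
  have hFp : ∀ p ∈ F, p.Prime ∧ K ≤ lg p := by
    intro p hp
    rw [hF, mem_filter, mem_Ico] at hp
    refine ⟨hp.2, Nat.le_floor ?_⟩
    have hp0 : (0 : ℝ) < p := by exact_mod_cast hp.2.pos
    rw [Real.le_log_iff_exp_le hp0]
    have : (x : ℝ) ≤ p := by exact_mod_cast hp.1.1
    linarith
  have h1 := mean_tail hK hFp (fun p => a p / p * Complex.exp (-(t * (Real.log p : ℝ)) * I)) D hD
    (fun p hp => by
      rw [norm_mul, norm_div, Complex.norm_natCast, Complex.norm_exp]
      have h2 : (-((t : ℂ) * ((Real.log p : ℝ) : ℂ)) * I).re = 0 := by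
        rw [Complex.mul_I_re, ← Complex.ofReal_mul, ← Complex.ofReal_neg, Complex.ofReal_im,
          neg_zero]
      rw [h2, Real.exp_zero, mul_one]
      exact div_le_div_of_nonneg_right (ha p) (Nat.cast_nonneg _))
  have h2 : ∫ τ in t..(t + 1), ‖ps a τ y - ps a τ x‖ ^ 2 =
      ∫ τ in (0 : ℝ)..1, ‖ps a (τ + t) y - ps a (τ + t) x‖ ^ 2 := by
    rw [intervalIntegral.integral_comp_add_right (fun τ => ‖ps a τ y - ps a τ x‖ ^ 2) t]
    rw [zero_add, add_comm 1 t]
  rw [h2]
  refine le_trans (le_of_eq ?_) h1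
  refine intervalIntegral.integral_congr fun τ _ => ?_
  have h3 : ps a (τ + t) y - ps a (τ + t) x = ∑ p ∈ F,
      a p / p * Complex.exp (-(t * (Real.log p : ℝ)) * I) *
        Complex.exp (-(τ * (Real.log p : ℝ)) * I) := by
    unfold ps
    rw [← sum_Ico_eq_sub _ hxy, hF, sum_filter]
    refine sum_congr rfl fun p _ => ?_
    unfold term
    split_ifs
    · rw [mul_assoc, ← Complex.exp_add]
      congr 2
      push_cast
      ring
    · rfl
  rw [h3]

/-- The boundary values are approximated in the mean. -/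
lemma bv_mean {a : ℕ → ℂ} {D : ℝ} (hD : 0 ≤ D) (ha : ∀ p, ‖a p‖ ≤ D) {K : ℕ} (hK : 1 ≤ K)
    {x : ℕ} (hx : Real.exp K ≤ x) (t : ℝ) :
    ∫⁻ τ in Set.Ioc t (t + 1), ENNReal.ofReal (‖bv a τ - ps a τ x‖ ^ 2) ≤
      ENNReal.ofReal (144 * CC ^ 2 * D ^ 2 / K) := by
  have h1 : ∀ᵐ τ ∂(volume.restrict (Set.Ioc t (t + 1))),
      ENNReal.ofReal (‖bv a τ - ps a τ x‖ ^ 2) =
      liminf (fun y : ℕ => ENNReal.ofReal (‖ps a τ (x + y) - ps a τ x‖ ^ 2)) atTop := by
    refine ae_restrict_of_ae ?_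
    filter_upwards [bv_ae ha] with τ hτ
    have h2 : Tendsto (fun y : ℕ => ps a τ (x + y)) atTop (𝓝 (bv a τ)) :=
      hτ.comp (tendsto_add_atTop_nat x |>.congr fun y => add_comm _ _)
    have h3 : Tendsto (fun y : ℕ => ENNReal.ofReal (‖ps a τ (x + y) - ps a τ x‖ ^ 2)) atTop
        (𝓝 (ENNReal.ofReal (‖bv a τ - ps a τ x‖ ^ 2))) :=
      ENNReal.tendsto_ofReal ((h2.sub_const _).norm.pow 2)
    exact h3.liminf_eq.symm
  rw [lintegral_congr_ae h1]
  refine (lintegral_liminf_le fun y => ?_).trans ?_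
  · have : Continuous fun τ : ℝ => ‖ps a τ (x + y) - ps a τ x‖ ^ 2 :=
      ((ps_continuous a _).sub (ps_continuous a _)).norm.pow 2
    exact this.measurable.ennreal_ofReal
  · refine liminf_le_of_le (by isBoundedDefault) fun b hb => ?_
    obtain ⟨y, hy⟩ := hb.exists
    refine hy.trans ?_
    have hc : Continuous fun τ : ℝ => ‖ps a τ (x + y) - ps a τ x‖ ^ 2 :=
      ((ps_continuous a _).sub (ps_continuous a _)).norm.pow 2
    have hi : IntegrableOn (fun τ : ℝ => ‖ps a τ (x + y) - ps a τ x‖ ^ 2)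
        (Set.Ioc t (t + 1)) :=
      (hc.integrableOn_Icc (a := t) (b := t + 1)).mono_set Set.Ioc_subset_Icc_self
    rw [← ofReal_integral_eq_lintegral_ofReal hi (ae_of_all _ fun τ => by positivity)]
    refine ENNReal.ofReal_le_ofReal ?_
    have := tail_mean hD ha hK hx (Nat.le_add_right x y) t
    rwa [intervalIntegral.integral_of_le (by linarith)] at this

lemma bv_measurable (a : ℕ → ℂ) {D : ℝ} (ha : ∀ p, ‖a p‖ ≤ D) : AEMeasurable (bv a) := by
  refine aemeasurable_of_tendsto_metrizable_ae atTop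
    (fun x => (ps_continuous a x).measurable.aemeasurable) (bv_ae ha)

/-- The boundary values are square integrable on intervals of length one. -/
lemma bv_sub_memLp {a : ℕ → ℂ} {D : ℝ} (hD : 0 ≤ D) (ha : ∀ p, ‖a p‖ ≤ D) {K : ℕ} (hK : 1 ≤ K)
    {x : ℕ} (hx : Real.exp K ≤ x) (t : ℝ) :
    Integrable (fun τ => ‖bv a τ - ps a τ x‖ ^ 2) (volume.restrict (Set.Ioc t (t + 1))) ∧
    ∫ τ in Set.Ioc t (t + 1), ‖bv a τ - ps a τ x‖ ^ 2 ≤ 144 * CC ^ 2 * D ^ 2 / K := by
  have hm : AEStronglyMeasurable (fun τ => ‖bv a τ - ps a τ x‖ ^ 2)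
      (volume.restrict (Set.Ioc t (t + 1))) :=
    ((((bv_measurable a ha).sub (ps_continuous a x).measurable.aemeasurable).norm).pow_const
      2).aestronglyMeasurable.restrict
  have h1 := bv_mean hD ha hK hx t
  have hint : Integrable (fun τ => ‖bv a τ - ps a τ x‖ ^ 2)
      (volume.restrict (Set.Ioc t (t + 1))) := by
    refine ⟨hm, ?_⟩
    rw [hasFiniteIntegral_iff_norm]
    refine lt_of_le_of_lt (lintegral_mono fun τ => ?_) (h1.trans_lt ENNReal.ofReal_lt_top)
    rw [Real.norm_of_nonneg (by positivity)]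
  refine ⟨hint, ?_⟩
  rw [← ENNReal.ofReal_le_ofReal_iff (by have := hK; positivity),
    ofReal_integral_eq_lintegral_ofReal hint (ae_of_all _ fun τ => by positivity)]
  exact h1

lemma exists_large (K : ℕ) : ∃ x : ℕ, Real.exp K ≤ x := exists_nat_ge _

lemma bv_intervalIntegrable {a : ℕ → ℂ} {D : ℝ} (hD : 0 ≤ D) (ha : ∀ p, ‖a p‖ ≤ D) (t : ℝ) :
    IntegrableOn (bv a) (Set.Ioc t (t + 1)) := by
  obtain ⟨x, hx⟩ := exists_large 1
  obtain ⟨h1, -⟩ := bv_sub_memLp hD ha le_rfl hx t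
  have h2 : IntegrableOn (fun τ => bv a τ - ps a τ x) (Set.Ioc t (t + 1)) := by
    have h3 : Integrable (fun τ => 1 + ‖bv a τ - ps a τ x‖ ^ 2)
        (volume.restrict (Set.Ioc t (t + 1))) := by
      refine Integrable.add ?_ h1
      exact integrable_const _
    refine h3.mono' ?_ (ae_of_all _ fun τ => ?_)
    · exact ((bv_measurable a ha).sub
        (ps_continuous a x).measurable.aemeasurable).aestronglyMeasurable.restrict
    · nlinarith [norm_nonneg (bv a τ - ps a τ x), sq_nonneg (‖bv a τ - ps a τ x‖ - 1)]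
  have h3 : IntegrableOn (fun τ => ps a τ x) (Set.Ioc t (t + 1)) :=
    ((ps_continuous a x).integrableOn_Icc (a := t) (b := t + 1)).mono_set Set.Ioc_subset_Icc_self
  have h4 := h2.add h3
  refine h4.congr (ae_of_all _ fun τ => ?_)
  simp

/-- **The primitive on the edge.** -/
lemma bv_integral {a : ℕ → ℂ} {D : ℝ} (hD : 0 ≤ D) (ha : ∀ p, ‖a p‖ ≤ D) {α β : ℝ}
    (hαβ : α ≤ β) (hβ : β ≤ α + 1) :
    ∫ τ in α..β, bv a τ = pp a β - pp a α := by
  have hsub : Set.Ioc α β ⊆ Set.Ioc α (α + 1) := Set.Ioc_subset_Ioc_right hβ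
  -- partial sums converge to the primitive
  have h1 : ∀ γ : ℝ, Tendsto (fun x : ℕ => ∑ p ∈ range x, pt a p γ) atTop (𝓝 (pp a γ)) := by
    intro γ
    have h2 : Summable fun n => pt a n (γ : ℂ) :=
      Summable.of_norm_bounded (summable_dom.mul_left D) fun n =>
        norm_pt_le hD ha (by simp) n
    exact h2.hasSum.tendsto_sum_nat
  have h2 : Tendsto (fun x : ℕ => ∫ τ in α..β, ps a τ x) atTop (𝓝 (pp a β - pp a α)) := by
    simp_rw [ps_integral]
    exact (h1 β).sub (h1 α)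
  -- and to the integral of the boundary values
  have h3 : Tendsto (fun x : ℕ => ∫ τ in α..β, ps a τ x) atTop (𝓝 (∫ τ in α..β, bv a τ)) := by
    rw [tendsto_iff_norm_sub_tendsto_zero, Metric.tendsto_atTop]
    intro ε hε
    obtain ⟨K, hK⟩ := exists_nat_gt (2 * (144 * CC ^ 2 * D ^ 2) / ε ^ 2)
    have hK1 : 1 ≤ K + 1 := by omega
    obtain ⟨X, hX⟩ := exists_large (K + 1)
    refine ⟨X, fun x hx => ?_⟩
    have hx' : Real.exp ((K + 1 : ℕ) : ℝ) ≤ x := hX.trans (by exact_mod_cast hx)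
    obtain ⟨h4, h5⟩ := bv_sub_memLp hD ha hK1 hx' α
    have hib : IntervalIntegrable (bv a) volume α β := by
      rw [intervalIntegrable_iff_integrableOn_Ioc_of_le hαβ]
      exact (bv_intervalIntegrable hD ha α).mono_set hsub
    have hip : IntervalIntegrable (fun τ => ps a τ x) volume α β :=
      (ps_continuous a x).intervalIntegrable _ _
    rw [← intervalIntegral.integral_sub hip hib, Real.dist_eq, sub_zero, abs_norm]
    have h6 : ‖∫ τ in α..β, (ps a τ x - bv a τ)‖ ≤ ∫ τ in α..β, ‖ps a τ x - bv a τ‖ :=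
      intervalIntegral.norm_integral_le_integral_norm hαβ
    refine lt_of_le_of_lt h6 ?_
    have h7 : ∀ τ, ‖ps a τ x - bv a τ‖ ≤ ε / 2 / 2 + 1 / ε * ‖bv a τ - ps a τ x‖ ^ 2 := by
      intro τ
      rw [norm_sub_rev]
      set u := ‖bv a τ - ps a τ x‖
      have h8 : ε / 2 / 2 + 1 / ε * u ^ 2 - u = (u - ε / 2) ^ 2 / ε := by
        field_simp
        ring
      have h9 : 0 ≤ (u - ε / 2) ^ 2 / ε := by positivity
      linarith
    have hi1 : IntegrableOn (fun τ => ε / 2 / 2 + 1 / ε * ‖bv a τ - ps a τ x‖ ^ 2)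
        (Set.Ioc α (α + 1)) := by
      refine Integrable.add (integrable_const _) ?_
      exact h4.const_mul _
    rw [intervalIntegral.integral_of_le hαβ]
    calc ∫ τ in Set.Ioc α β, ‖ps a τ x - bv a τ‖
        ≤ ∫ τ in Set.Ioc α (α + 1), ‖ps a τ x - bv a τ‖ := by
          refine setIntegral_mono_set ?_ (ae_of_all _ fun τ => norm_nonneg _)
            (Filter.Eventually.of_forall fun τ hτ => hsub hτ)
          refine Integrable.norm ?_
          refine Integrable.sub ?_ (bv_intervalIntegrable hD ha α)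
          exact ((ps_continuous a x).integrableOn_Icc (a := α) (b := α + 1)).mono_set
            Set.Ioc_subset_Icc_self
      _ ≤ ∫ τ in Set.Ioc α (α + 1), (ε / 2 / 2 + 1 / ε * ‖bv a τ - ps a τ x‖ ^ 2) := by
          refine integral_mono_of_nonneg (ae_of_all _ fun τ => norm_nonneg _) hi1
            (ae_of_all _ h7)
      _ = ε / 2 / 2 + 1 / ε * ∫ τ in Set.Ioc α (α + 1), ‖bv a τ - ps a τ x‖ ^ 2 := by
          rw [integral_add (integrable_const _) (h4.const_mul _), integral_const_mul,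
            setIntegral_const]
          simp
      _ ≤ ε / 2 / 2 + 1 / ε * (144 * CC ^ 2 * D ^ 2 / ((K + 1 : ℕ) : ℝ)) := by gcongr
      _ ≤ ε / 2 / 2 + 1 / ε * (ε ^ 2 / 2) := by
          have h10 : 144 * CC ^ 2 * D ^ 2 / ((K + 1 : ℕ) : ℝ) ≤ ε ^ 2 / 2 := by
            have hK0 : (0 : ℝ) < ((K + 1 : ℕ) : ℝ) := by positivity
            rw [div_le_iff₀ hK0]
            rw [div_lt_iff₀ (by positivity)] at hK
            push_cast
            nlinarith [sq_nonneg ε]
          gcongr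
      _ = ε * (3 / 4) := by
          field_simp
          ring
      _ < ε := by linarith
  exact tendsto_nhds_unique h3 h2

/-- The radial limits. -/
lemma bv_radial {a : ℕ → ℂ} {D : ℝ} (hD : 0 ≤ D) (ha : ∀ p, ‖a p‖ ≤ D) {τ : ℝ}
    (hτ : Tendsto (ps a τ) atTop (𝓝 (bv a τ))) :
    Tendsto (fun ε : ℝ => gg a (τ - I * ε)) (𝓝[>] 0) (𝓝 (bv a τ)) := by
  have hs : ∀ z : ℂ, 0 < z.re → Summable fun n : ℕ =>
      Complex.exp (-z * Real.log n) * term a τ n := by
    intro z hz
    refine Summable.of_norm_bounded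
      (((Real.summable_one_div_nat_rpow (p := 1 + z.re)).2 (by linarith)).mul_left D) fun n => ?_
    have h1 : Complex.exp (-z * Real.log n) * term a τ n =
        cf a n * Complex.exp (-(I * (τ - I * z)) * Real.log n) := by
      rw [term_eq, mul_left_comm, ← Complex.exp_add]
      congr 2
      have : I * ((τ : ℂ) - I * z) = I * τ + z := by
        have hI := Complex.I_mul_I
        linear_combination (-z) * hI
      rw [this]
      ring
    rw [h1]
    exact gg_summand_bound hD ha (by simp) n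
  have h1 := abel_stolz (term a τ) (bv a τ) hτ hs 1
  have h2 : Tendsto (fun ε : ℝ => (ε : ℂ)) (𝓝[>] 0)
      (𝓝[{z : ℂ | 0 < z.re ∧ ‖z‖ ≤ 1 * z.re}] 0) := by
    refine tendsto_nhdsWithin_iff.2 ⟨?_, ?_⟩
    · have : Tendsto (fun ε : ℝ => (ε : ℂ)) (𝓝 0) (𝓝 ((0 : ℝ) : ℂ)) :=
        Complex.continuous_ofReal.tendsto 0
      rw [Complex.ofReal_zero] at this
      exact this.mono_left nhdsWithin_le_nhds
    · filter_upwards [self_mem_nhdsWithin] with ε hε
      have hε' : 0 < ε := hε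
      refine ⟨by simpa using hε', ?_⟩
      rw [Complex.norm_real, Real.norm_of_nonneg hε'.le, one_mul, Complex.ofReal_re]
  refine (h1.comp h2).congr fun ε => ?_
  simp only [Function.comp_apply]
  unfold gg
  refine tsum_congr fun n => ?_
  rw [term_eq, mul_left_comm, ← Complex.exp_add]
  congr 2
  have : I * ((τ : ℂ) - I * ε) = I * τ + ε := by
    have hI := Complex.I_mul_I
    linear_combination (-(ε : ℂ)) * hI
  rw [this]
  ring

/-- **The local extension theorem.**  If the real part of the boundary values is the real part of a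
holomorphic function, the prime sum continues across the edge. -/
theorem local_ext {a : ℕ → ℂ} {D : ℝ} (hD : 0 ≤ D) (ha : ∀ p, ‖a p‖ ≤ D) {c r : ℝ}
    (hr0 : 0 < r) (hr : r ≤ 1) {H : ℂ → ℂ} (hH : DifferentiableOn ℂ H (ball (c : ℂ) r))
    (hb : ∀ᵐ τ : ℝ, (τ : ℂ) ∈ ball (c : ℂ) r → (bv a τ).re = (H τ).re) :
    ∃ G : ℂ → ℂ, DifferentiableOn ℂ G (ball (c : ℂ) r) ∧
      ∀ ζ ∈ ball (c : ℂ) r, ζ.im < 0 → G ζ = gg a ζ := by
  obtain ⟨H1, hH1⟩ := hH.isExactOn_ball
  have hH1c : ContinuousOn H1 (ball (c : ℂ) r) := fun z hz =>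
    (hH1 z hz).continuousAt.continuousWithinAt
  set e : ℂ := (((pp a c).re - (H1 c).re : ℝ) : ℂ) with he
  have hcmem : (c : ℂ) ∈ ball (c : ℂ) r := mem_ball_self hr0
  have hseg : ∀ x : ℝ, (x : ℂ) ∈ ball (c : ℂ) r ↔ |x - c| < r := by
    intro x
    rw [mem_ball, dist_eq_norm, ← Complex.ofReal_sub, Complex.norm_real, Real.norm_eq_abs]
  -- the real part of `pp a - H1` is constant on the axis
  have hconst : ∀ α β : ℝ, α ≤ β → β ≤ α + 1 → (∀ x ∈ Set.Icc α β, (x : ℂ) ∈ ball (c : ℂ) r) →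
      ((pp a β - H1 β) - (pp a α - H1 α)).re = 0 := by
    intro α β hαβ hβ hx
    have h1 := bv_integral hD ha hαβ hβ
    have hcont : ContinuousOn (fun x : ℝ => H x) (Set.Icc α β) := by
      refine hH.continuousOn.comp (by fun_prop) hx
    have hiH : IntervalIntegrable (fun x : ℝ => H x) volume α β := by
      refine ContinuousOn.intervalIntegrable ?_
      rwa [Set.uIcc_of_le hαβ]
    have h2 : ∫ τ in α..β, H τ = H1 β - H1 α := by
      have h3 := intervalIntegral.integral_eq_sub_of_hasDerivAt (a := α) (b := β)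
        (f := fun τ : ℝ => H1 (τ : ℂ)) (f' := fun τ : ℝ => H τ) ?_ hiH
      · exact h3
      · intro x hxx
        rw [Set.uIcc_of_le hαβ] at hxx
        exact (hH1 x (hx x hxx)).comp_ofReal
    have hib : IntervalIntegrable (bv a) volume α β := by
      rw [intervalIntegrable_iff_integrableOn_Ioc_of_le hαβ]
      exact (bv_intervalIntegrable hD ha α).mono_set (Set.Ioc_subset_Ioc_right hβ)
    have h3 : ((pp a β - H1 β) - (pp a α - H1 α)) = ∫ τ in α..β, (bv a τ - H τ) := by
      rw [intervalIntegral.integral_sub hib hiH, h1, h2]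
      ring
    rw [h3]
    have h4 : (∫ τ in α..β, (bv a τ - H τ)).re = ∫ τ in α..β, (bv a τ - H τ).re := by
      have := intervalIntegral.intervalIntegral_re (hib.sub hiH)
      simpa using this.symm
    rw [h4]
    refine intervalIntegral.integral_zero_ae ?_
    filter_upwards [hb] with τ hτ hτm
    rw [Set.uIoc_of_le hαβ] at hτm
    rw [Complex.sub_re, hτ (hx τ (Set.Ioc_subset_Icc_self hτm)), sub_self]
  have hzero : ∀ x : ℝ, (x : ℂ) ∈ ball (c : ℂ) r → (pp a x - H1 x - e).re = 0 := by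
    intro x hx
    have hx' := (hseg x).1 hx
    rw [abs_lt] at hx'
    have hee : (pp a x - H1 x - e).re = ((pp a x - H1 x) - (pp a c - H1 c)).re := by
      rw [he]
      simp only [Complex.sub_re, Complex.ofReal_re]
    rw [hee]
    rcases le_total c x with h | h
    · refine hconst c x h (by linarith) fun y hy => ?_
      rw [hseg, abs_lt]
      exact ⟨by linarith [hy.1], by linarith [hy.2]⟩
    · have h1 := hconst x c h (by linarith) fun y hy => ?_
      · have h2 : ((pp a x - H1 x) - (pp a c - H1 c)) = -((pp a c - H1 c) - (pp a x - H1 x)) := by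
          ring
        rw [h2, Complex.neg_re, h1, neg_zero]
      · rw [hseg, abs_lt]
        exact ⟨by linarith [hy.1], by linarith [hy.2]⟩
  have hQc : ContinuousOn (fun z => pp a z - H1 z - e) {z | z ∈ ball (c : ℂ) r ∧ z.im ≤ 0} := by
    refine ContinuousOn.sub (ContinuousOn.sub ?_ ?_) continuousOn_const
    · exact (pp_continuousOn hD ha).mono fun z hz => hz.2
    · exact hH1c.mono fun z hz => hz.1
  have hQd : ∀ z ∈ ball (c : ℂ) r, z.im < 0 →
      DifferentiableAt ℂ (fun z => pp a z - H1 z - e) z := by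
    intro z hz him
    exact (((gg_hasDeriv hD ha him).sub (hH1 z hz)).sub_const e).differentiableAt
  obtain ⟨R, hR1, hR2⟩ := schwarz hQc hQd hzero
  · refine ⟨fun ζ => deriv R ζ + H ζ, (hR1.deriv isOpen_ball).add hH, ?_⟩
    intro ζ hζ him
    have h1 : R =ᶠ[𝓝 ζ] fun z => pp a z - H1 z - e := by
      filter_upwards [isOpen_ball.mem_nhds hζ,
        (isOpen_lt continuous_im continuous_const).mem_nhds him] with y hy1 hy2
      exact hR2 y hy1 (le_of_lt hy2)
    have h2 : HasDerivAt (fun z => pp a z - H1 z - e) (gg a ζ - H ζ) ζ :=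
      ((gg_hasDeriv hD ha him).sub (hH1 ζ hζ)).sub_const e
    show deriv R ζ + H ζ = gg a ζ
    rw [h1.deriv_eq, h2.deriv]
    ring

end Pool.Agent.R385.MC
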