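import Pool.Agent.R385.MC.Bdry

/-!
# The local criterion
-/

set_option autoImplicit false

namespace Pool.Agent.R385.MC

open Complex Filter Topology MeasureTheory Metric Finset Pool.Agent.W350.Edge

/-- A holomorphic logarithm. -/
lemma exists_log {f : ℂ → ℂ} {c : ℂ} (hf : AnalyticAt ℂ f c) (hc : f c ≠ 0) :
    ∃ g : ℂ → ℂ, AnalyticAt ℂ g c ∧ ∀ᶠ z in 𝓝 c, f z = Complex.exp (g z) := by
  have h1 : AnalyticAt ℂ (fun z => Complex.log (f z / f c)) c := by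
    refine AnalyticAt.clog (hf.div analyticAt_const hc) ?_
    rw [div_self hc]
    exact Complex.one_mem_slitPlane
  refine ⟨fun z => Complex.log (f c) + Complex.log (f z / f c), analyticAt_const.add h1, ?_⟩
  filter_upwards [hf.continuousAt.eventually_ne hc] with z hz
  rw [Complex.exp_add, Complex.exp_log hc, Complex.exp_log (div_ne_zero hz hc)]
  field_simp

/-- The data: `L(ζ) = A(ζ) exp (∑ a_p p^{-1-iζ})` in the lower half-plane, `lam` the modulus of the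
boundary values. -/
structure Dec (L : ℂ → ℂ) (lam : ℝ → ℝ) (a : ℕ → ℂ) (D : ℝ) (A : ℂ → ℂ) : Prop where
  D0 : 0 ≤ D
  ha : ∀ p, ‖a p‖ ≤ D
  mer : ∀ ζ : ℂ, ζ.im ≤ 0 → MeromorphicAt A ζ
  ord : ∀ ζ : ℂ, ζ.im ≤ 0 → meromorphicOrderAt A ζ ≠ ⊤
  eqL : ∀ ζ : ℂ, ζ.im < 0 → L ζ = A ζ * Complex.exp (gg a ζ)
  eqlam : ∀ᵐ τ : ℝ, lam τ = ‖A τ‖ * Real.exp (bv a τ).re

/-- The comparison function with a simple pole. -/
def Piece (b : ℕ → ℂ) (Y : ℂ → ℂ) (τ₀ : ℝ) : Prop :=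
  (∀ p, ‖b p‖ ≤ 1) ∧ AnalyticAt ℂ Y τ₀ ∧ Y τ₀ ≠ 0 ∧
    ∀ᶠ ζ : ℂ in 𝓝 (τ₀ : ℂ), ζ.im < 0 → Complex.exp (gg b ζ) = Y ζ * (ζ - τ₀)⁻¹

/-- The pointwise condition near a real point. -/
def NearR (τ₀ : ℝ) (P : ℝ → Prop) : Prop := ∃ r : ℝ, 0 < r ∧ ∀ᵐ τ : ℝ, |τ - τ₀| < r → P τ

lemma NearR.and {τ₀ : ℝ} {P Q : ℝ → Prop} (h1 : NearR τ₀ P) (h2 : NearR τ₀ Q) :
    NearR τ₀ fun τ => P τ ∧ Q τ := by
  obtain ⟨r, hr, h1⟩ := h1
  obtain ⟨s, hs, h2⟩ := h2
  refine ⟨min r s, lt_min hr hs, ?_⟩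
  filter_upwards [h1, h2] with τ h3 h4 h5
  exact ⟨h3 (h5.trans_le (min_le_left _ _)), h4 (h5.trans_le (min_le_right _ _))⟩

lemma NearR.mono {τ₀ : ℝ} {P Q : ℝ → Prop} (h1 : NearR τ₀ P) (h : ∀ τ, P τ → Q τ) :
    NearR τ₀ Q := by
  obtain ⟨r, hr, h1⟩ := h1
  refine ⟨r, hr, ?_⟩
  filter_upwards [h1] with τ h3 h5
  exact h _ (h3 h5)

lemma NearR.of_ae {τ₀ : ℝ} {P : ℝ → Prop} (h : ∀ᵐ τ : ℝ, P τ) : NearR τ₀ P :=
  ⟨1, one_pos, by filter_upwards [h] with τ h1 _ using h1⟩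

lemma NearR.of_nhds {τ₀ : ℝ} {P : ℂ → Prop} (h : ∀ᶠ ζ : ℂ in 𝓝 (τ₀ : ℂ), P ζ) :
    NearR τ₀ fun τ => P τ := by
  obtain ⟨r, hr, h1⟩ := Metric.eventually_nhds_iff_ball.1 h
  refine ⟨r, hr, ae_of_all _ fun τ hτ => h1 _ ?_⟩
  rw [mem_ball, dist_eq_norm, ← Complex.ofReal_sub, Complex.norm_real, Real.norm_eq_abs]
  exact hτ

lemma NearR.ne {τ₀ : ℝ} : NearR τ₀ fun τ => τ ≠ τ₀ := by
  refine NearR.of_ae ?_
  have : volume ({τ₀} : Set ℝ) = 0 := by simp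
  rw [ae_iff]
  simp

lemma NearR.of_punctured {τ₀ : ℝ} {P : ℂ → Prop} (h : ∀ᶠ ζ : ℂ in 𝓝[≠] (τ₀ : ℂ), P ζ) :
    NearR τ₀ fun τ => P τ := by
  rw [eventually_nhdsWithin_iff] at h
  refine ((NearR.of_nhds h).and NearR.ne).mono fun τ h1 => ?_
  refine h1.1 ?_
  intro h2
  have h3 : (τ : ℂ) = (τ₀ : ℂ) := h2
  exact h1.2 (by exact_mod_cast h3)

/-- There are points of the set on the right, arbitrarily close. -/
lemma NearR.frequently_gt {τ₀ : ℝ} {P : ℝ → Prop} (h : NearR τ₀ P) :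
    ∃ᶠ τ in 𝓝[>] τ₀, P τ := by
  obtain ⟨r, hr, h1⟩ := h
  intro h2
  rw [eventually_nhdsWithin_iff, Metric.eventually_nhds_iff_ball] at h2
  obtain ⟨s, hs, h2⟩ := h2
  have h3 : ∀ᵐ τ : ℝ, τ ∉ Set.Ioo τ₀ (τ₀ + min r s) := by
    filter_upwards [h1] with τ h4 h5
    have h6 := h5.1
    have h7 := h5.2
    have h8 : |τ - τ₀| < min r s := by
      rw [abs_of_pos (by linarith)]
      linarith
    refine h2 τ ?_ h5.1 (h4 (h8.trans_le (min_le_left _ _)))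
    rw [mem_ball, Real.dist_eq]
    exact h8.trans_le (min_le_right _ _)
  rw [ae_iff] at h3
  simp only [not_not, Set.ofPred_mem_eq, Real.volume_Ioo] at h3
  have h4 : 0 < min r s := lt_min hr hs
  have h5 : τ₀ + min r s - τ₀ = min r s := by ring
  rw [h5, ENNReal.ofReal_eq_zero] at h3
  linarith

lemma NearR.frequently_lt {τ₀ : ℝ} {P : ℝ → Prop} (h : NearR τ₀ P) :
    ∃ᶠ τ in 𝓝[<] τ₀, P τ := by
  obtain ⟨r, hr, h1⟩ := h
  intro h2
  rw [eventually_nhdsWithin_iff, Metric.eventually_nhds_iff_ball] at h2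
  obtain ⟨s, hs, h2⟩ := h2
  have h3 : ∀ᵐ τ : ℝ, τ ∉ Set.Ioo (τ₀ - min r s) τ₀ := by
    filter_upwards [h1] with τ h4 h5
    have h6 := h5.1
    have h7 := h5.2
    have h8 : |τ - τ₀| < min r s := by
      rw [abs_of_neg (by linarith)]
      linarith
    refine h2 τ ?_ h5.2 (h4 (h8.trans_le (min_le_left _ _)))
    rw [mem_ball, Real.dist_eq]
    exact h8.trans_le (min_le_right _ _)
  rw [ae_iff] at h3
  simp only [not_not, Set.ofPred_mem_eq, Real.volume_Ioo] at h3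
  have h4 : 0 < min r s := lt_min hr hs
  have h5 : τ₀ - (τ₀ - min r s) = min r s := by ring
  rw [h5, ENNReal.ofReal_eq_zero] at h3
  linarith

/-- The order of a function with positive values on the real axis is even. -/
lemma even_order {K₀ : ℂ → ℂ} {τ₀ : ℝ} {n : ℤ} (hK : ContinuousAt K₀ τ₀) (h0 : K₀ τ₀ ≠ 0)
    (h : NearR τ₀ fun τ => ∃ x : ℝ, 0 ≤ x ∧ ((τ : ℂ) - τ₀) ^ n * K₀ τ = x) : Even n := by
  by_contra hodd
  rw [Int.not_even_iff_odd] at hodd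
  have hcl : IsClosed {z : ℂ | 0 ≤ z.re ∧ z.im = 0} := by
    refine IsClosed.inter (isClosed_le continuous_const continuous_re) ?_
    exact isClosed_eq continuous_im continuous_const
  have hcont : Tendsto (fun τ : ℝ => K₀ τ) (𝓝 τ₀) (𝓝 (K₀ τ₀)) :=
    hK.tendsto.comp Complex.continuous_ofReal.continuousAt
  -- from the right
  have h1 : K₀ τ₀ ∈ {z : ℂ | 0 ≤ z.re ∧ z.im = 0} := by
    refine hcl.mem_of_frequently_of_tendsto (b := 𝓝[>] τ₀) ?_
      (hcont.mono_left nhdsWithin_le_nhds)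
    refine (h.frequently_gt.and_eventually self_mem_nhdsWithin).mono ?_
    rintro τ ⟨⟨x, hx, h2⟩, h3⟩
    have h4 : 0 < τ - τ₀ := sub_pos.2 h3
    have h5 : ((τ : ℂ) - τ₀) ^ n = (((τ - τ₀) ^ n : ℝ) : ℂ) := by push_cast; rfl
    have h6 : (((τ - τ₀) ^ n : ℝ) : ℂ) ≠ 0 := by
      exact_mod_cast (zpow_pos h4 n).ne'
    rw [h5] at h2
    have h7 : K₀ τ = ((x / (τ - τ₀) ^ n : ℝ) : ℂ) := by
      rw [Complex.ofReal_div, ← h2]
      field_simp
    show 0 ≤ (K₀ τ).re ∧ (K₀ τ).im = 0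
    rw [h7, Complex.ofReal_re, Complex.ofReal_im]
    exact ⟨by positivity, rfl⟩
  -- from the left
  have h2 : K₀ τ₀ ∈ {z : ℂ | z.re ≤ 0} := by
    have hcl' : IsClosed {z : ℂ | z.re ≤ 0} := isClosed_le continuous_re continuous_const
    refine hcl'.mem_of_frequently_of_tendsto (b := 𝓝[<] τ₀) ?_
      (hcont.mono_left nhdsWithin_le_nhds)
    refine (h.frequently_lt.and_eventually self_mem_nhdsWithin).mono ?_
    rintro τ ⟨⟨x, hx, h2⟩, h3⟩
    have h3' : τ < τ₀ := h3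
    have h4 : 0 < τ₀ - τ := sub_pos.2 h3'
    have h5 : ((τ : ℂ) - τ₀) ^ n = ((-(τ₀ - τ) ^ n : ℝ) : ℂ) := by
      have : ((τ : ℂ) - τ₀) = -((τ₀ - τ : ℝ) : ℂ) := by push_cast; ring
      rw [this, hodd.neg_zpow]
      push_cast
      rfl
    have h6 : (((τ₀ - τ) ^ n : ℝ) : ℂ) ≠ 0 := by
      exact_mod_cast (zpow_pos h4 n).ne'
    rw [h5] at h2
    have h7 : K₀ τ = ((-(x / (τ₀ - τ) ^ n) : ℝ) : ℂ) := by
      rw [Complex.ofReal_neg, Complex.ofReal_div, ← h2]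
      push_cast
      push_cast at h6
      field_simp
    show (K₀ τ).re ≤ 0
    rw [h7, Complex.ofReal_re]
    have : 0 ≤ x / (τ₀ - τ) ^ n := by positivity
    linarith
  refine h0 (Complex.ext ?_ ?_)
  · exact le_antisymm h2 h1.1
  · exact h1.2

section

variable {L : ℂ → ℂ} {lam : ℝ → ℝ} {a : ℕ → ℂ} {D : ℝ} {A : ℂ → ℂ}

/-- The radial limits of the modulus. -/
lemma Dec.radial (h : Dec L lam a D A) :
    ∀ᵐ τ : ℝ, ContinuousAt A τ → Tendsto (fun ε : ℝ => ‖L (τ - I * ε)‖) (𝓝[>] 0) (𝓝 (lam τ)) := by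
  filter_upwards [bv_ae h.ha, h.eqlam] with τ h1 h2 hc
  have h3 := bv_radial h.D0 h.ha h1
  have h4 : Tendsto (fun ε : ℝ => A ((τ : ℂ) - I * ε)) (𝓝[>] 0) (𝓝 (A τ)) := by
    refine hc.tendsto.comp ?_
    have h5 : Continuous fun ε : ℝ => (τ : ℂ) - I * ε := by fun_prop
    have h6 := h5.tendsto 0
    simp only [Complex.ofReal_zero, mul_zero, sub_zero] at h6
    exact h6.mono_left nhdsWithin_le_nhds
  have h5 := (h4.mul ((Complex.continuous_exp.tendsto _).comp h3)).norm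
  rw [norm_mul, Complex.norm_exp, ← h2] at h5
  refine h5.congr' ?_
  filter_upwards [self_mem_nhdsWithin] with ε hε
  have hε' : 0 < ε := hε
  rw [h.eqL _ (by simpa using hε')]
  rfl

lemma Dec.continuousAt (h : Dec L lam a D A) (τ₀ : ℝ) :
    NearR τ₀ fun τ => AnalyticAt ℂ A τ ∧ A τ ≠ 0 := by
  have h1 := (h.mer τ₀ (by simp)).eventually_analyticAt
  have h2 := (meromorphicOrderAt_ne_top_iff_eventually_ne_zero (h.mer τ₀ (by simp))).1
    (h.ord τ₀ (by simp))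
  exact (NearR.of_punctured h1).and (NearR.of_punctured h2)

lemma Dec.pos (h : Dec L lam a D A) (τ₀ : ℝ) : NearR τ₀ fun τ => 0 < lam τ := by
  refine ((h.continuousAt τ₀).and (NearR.of_ae h.eqlam)).mono fun τ h1 => ?_
  rw [h1.2]
  have := norm_pos_iff.2 h1.1.2
  positivity

/-- The boundary values of the comparison function. -/
lemma piece_bdry {b : ℕ → ℂ} {Y : ℂ → ℂ} {τ₀ : ℝ} (hp : Piece b Y τ₀) :
    NearR τ₀ fun τ => Real.exp (bv b τ).re = ‖Y τ‖ * |τ - τ₀|⁻¹ := by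
  obtain ⟨hb, hY, hY0, hev⟩ := hp
  have h1 : NearR τ₀ fun τ => AnalyticAt ℂ Y τ :=
    NearR.of_nhds hY.eventually_analyticAt
  have h2 : NearR τ₀ fun τ => ∀ᶠ ζ : ℂ in 𝓝 (τ : ℂ), ζ.im < 0 →
      Complex.exp (gg b ζ) = Y ζ * (ζ - τ₀)⁻¹ := NearR.of_nhds hev.eventually_nhds
  refine ((h1.and h2).and (NearR.ne.and (NearR.of_ae (bv_ae hb)))).mono ?_
  rintro τ ⟨⟨h3, h4⟩, h5, h6⟩
  have h7 := bv_radial zero_le_one hb h6
  have h8 : Tendsto (fun ε : ℝ => (τ : ℂ) - I * ε) (𝓝[>] 0) (𝓝 τ) := by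
    have h5 : Continuous fun ε : ℝ => (τ : ℂ) - I * ε := by fun_prop
    have h6 := h5.tendsto 0
    simp only [Complex.ofReal_zero, mul_zero, sub_zero] at h6
    exact h6.mono_left nhdsWithin_le_nhds
  have h9 : Tendsto (fun ε : ℝ => Complex.exp (gg b (τ - I * ε))) (𝓝[>] 0)
      (𝓝 (Y τ * ((τ : ℂ) - τ₀)⁻¹)) := by
    have h10 : ContinuousAt (fun ζ : ℂ => Y ζ * (ζ - τ₀)⁻¹) τ := by
      refine h3.continuousAt.mul (ContinuousAt.inv₀ (by fun_prop) ?_)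
      intro h11
      exact h5 (by exact_mod_cast (sub_eq_zero.1 h11))
    refine (h10.tendsto.comp h8).congr' ?_
    filter_upwards [h8.eventually h4, self_mem_nhdsWithin] with ε h12 hε
    have hε' : 0 < ε := hε
    exact (h12 (by simpa using hε')).symm
  have h10 := tendsto_nhds_unique ((Complex.continuous_exp.tendsto _).comp h7) h9
  have h11 := congrArg norm h10
  rw [Complex.norm_exp, norm_mul, norm_inv, ← Complex.ofReal_sub, Complex.norm_real,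
    Real.norm_eq_abs] at h11
  exact h11

lemma gg_add_mul {a b : ℕ → ℂ} {D : ℝ} (hD : 0 ≤ D) (ha : ∀ p, ‖a p‖ ≤ D)
    (hb : ∀ p, ‖b p‖ ≤ 1) (j : ℂ) {ζ : ℂ} (hζ : ζ.im < 0) :
    gg (fun p => a p + j * b p) ζ = gg a ζ + j * gg b ζ := by
  have hs : ∀ {c : ℕ → ℂ} {E : ℝ}, 0 ≤ E → (∀ p, ‖c p‖ ≤ E) →
      Summable fun n => cf c n * Complex.exp (-(I * ζ) * Real.log n) := by
    intro c E hE hc
    refine Summable.of_norm_bounded
      (((Real.summable_one_div_nat_rpow (p := 1 + -ζ.im)).2 (by linarith)).mul_left E) fun n => ?_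
    exact gg_summand_bound hE hc (by simp) n
  unfold gg
  rw [← tsum_mul_left, ← (hs hD ha).tsum_add ((hs zero_le_one hb).mul_left j)]
  refine tsum_congr fun n => ?_
  unfold cf
  split_ifs
  · ring
  · ring

lemma bv_add_mul {a b : ℕ → ℂ} {D : ℝ} (ha : ∀ p, ‖a p‖ ≤ D)
    (hb : ∀ p, ‖b p‖ ≤ 1) (j : ℂ) :
    ∀ᵐ τ : ℝ, bv (fun p => a p + j * b p) τ = bv a τ + j * bv b τ := by
  filter_upwards [bv_ae ha, bv_ae hb] with τ h1 h2
  have h3 := h1.add (h2.const_mul j)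
  refine Tendsto.limUnder_eq (h3.congr fun x => ?_)
  unfold ps
  rw [mul_sum, ← sum_add_distrib]
  refine sum_congr rfl fun p _ => ?_
  unfold term
  split_ifs
  · ring
  · ring

/-- **The local criterion.** -/
theorem local_crit (h : Dec L lam a D A) {b : ℕ → ℂ} {Y : ℂ → ℂ} {τ₀ : ℝ} (hp : Piece b Y τ₀)
    {K : ℂ → ℂ} (hK : MeromorphicAt K τ₀) (hKl : NearR τ₀ fun τ => K τ = ((lam τ ^ 2 : ℝ) : ℂ)) :
    ∃ (m : ℤ) (F : ℂ → ℂ), MeromorphicAt F τ₀ ∧ meromorphicOrderAt F τ₀ = m ∧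
      meromorphicOrderAt K τ₀ = (2 * m : ℤ) ∧
      ∀ᶠ ζ : ℂ in 𝓝 (τ₀ : ℂ), ζ.im < 0 → F ζ = L ζ := by
  obtain ⟨hb, hY, hY0, hev⟩ := id hp
  -- the order of `K`
  have hKtop : meromorphicOrderAt K τ₀ ≠ ⊤ := by
    intro htop
    rw [meromorphicOrderAt_eq_top_iff] at htop
    obtain ⟨τ, h1⟩ := (((NearR.of_punctured htop).and hKl).and
      (h.pos τ₀)).frequently_gt.exists
    rw [h1.1.1] at h1
    have h2 : ((lam τ ^ 2 : ℝ) : ℂ) = 0 := h1.1.2.symm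
    have h3 : lam τ ^ 2 = 0 := by exact_mod_cast h2
    have h4 := h1.2
    nlinarith
  obtain ⟨n, hn⟩ := WithTop.ne_top_iff_exists.1 hKtop
  obtain ⟨K₀, hK₀, hK₀0, hKe⟩ := (meromorphicOrderAt_eq_int_iff hK).1 hn.symm
  obtain ⟨q, hq⟩ := WithTop.ne_top_iff_exists.1 (h.ord τ₀ (by simp))
  obtain ⟨A₀, hA₀, hA₀0, hAe⟩ := (meromorphicOrderAt_eq_int_iff (h.mer τ₀ (by simp))).1 hq.symm
  -- parity
  have heven : Even n := by
    refine even_order hK₀.continuousAt hK₀0 ?_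
    refine ((NearR.of_punctured hKe).and hKl).mono fun τ h1 => ⟨lam τ ^ 2, by positivity, ?_⟩
    rw [← h1.2, h1.1, smul_eq_mul]
  obtain ⟨m, hm⟩ := heven
  have hm2 : n = 2 * m := by omega
  obtain ⟨k, hk, hke⟩ := exists_log hK₀ hK₀0
  obtain ⟨α, hα, hαe⟩ := exists_log hA₀ hA₀0
  obtain ⟨y, hy, hye⟩ := exists_log hY hY0
  set j : ℤ := m - q with hj
  set H : ℂ → ℂ := fun ζ => k ζ / 2 - α ζ + j * y ζ with hH
  have hHa : AnalyticAt ℂ H τ₀ := ((hk.div_const).sub hα).add (analyticAt_const.mul hy)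
  -- the new prime sum
  set a' : ℕ → ℂ := fun p => a p + (j : ℂ) * b p with ha'
  have ha'b : ∀ p, ‖a' p‖ ≤ D + |(j : ℝ)| := by
    intro p
    refine (norm_add_le _ _).trans (add_le_add (h.ha p) ?_)
    rw [norm_mul, Complex.norm_intCast]
    calc |(j : ℝ)| * ‖b p‖ ≤ |(j : ℝ)| * 1 := by
          have := hb p
          gcongr
      _ = _ := mul_one _
  -- the identity on the axis
  have hre : NearR τ₀ fun τ => (bv a' τ).re = (H τ).re := by
    have hae := NearR.of_ae (τ₀ := τ₀) (bv_add_mul h.ha hb (j : ℂ))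
    refine (((((NearR.of_punctured hKe).and hKl).and ((NearR.of_punctured hAe).and
      (NearR.of_ae h.eqlam))).and (((NearR.of_nhds hke).and (NearR.of_nhds hαe)).and
      ((NearR.of_nhds hye).and (piece_bdry hp)))).and (hae.and NearR.ne)).mono ?_
    rintro τ ⟨⟨⟨⟨h1, h2⟩, h3, h4⟩, ⟨h5, h6⟩, h7, h8⟩, h9, h10⟩
    have h0 : 0 < |τ - τ₀| := abs_pos.2 (sub_ne_zero.2 h10)
    set u := Real.log |τ - τ₀| with hu
    have hue : |τ - τ₀| = Real.exp u := (Real.exp_log h0).symm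
    have hpow : ∀ l : ℤ, ‖((τ : ℂ) - τ₀) ^ l‖ = Real.exp (l * u) := by
      intro l
      rw [norm_zpow, ← Complex.ofReal_sub, Complex.norm_real, Real.norm_eq_abs, hue,
        ← Real.rpow_intCast, ← Real.exp_mul, mul_comm]
    -- modulus of `K`
    have e1 : lam τ ^ 2 = Real.exp (n * u + (k τ).re) := by
      have h11 := congrArg norm (h2.symm.trans h1)
      rw [Complex.norm_real, Real.norm_of_nonneg (by positivity), smul_eq_mul, norm_mul, hpow,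
        h5, Complex.norm_exp, ← Real.exp_add] at h11
      exact h11
    have e2 : lam τ = Real.exp (q * u + (α τ).re + (bv a τ).re) := by
      rw [h4, h3, smul_eq_mul, norm_mul, hpow, h6, Complex.norm_exp, ← Real.exp_add,
        ← Real.exp_add]
    have e3 : (bv b τ).re = (y τ).re - u := by
      rw [hue, h7, Complex.norm_exp, ← Real.exp_neg, ← Real.exp_add, Real.exp_eq_exp] at h8
      linarith
    have e4 : 2 * (q * u + (α τ).re + (bv a τ).re) = n * u + (k τ).re := by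
      rw [e2, sq, ← Real.exp_add, Real.exp_eq_exp] at e1
      linarith
    have hn' : (n : ℝ) = 2 * m := by exact_mod_cast hm2
    have hj' : (j : ℝ) = m - q := by
      rw [hj]
      push_cast
      rfl
    have e5 : (bv a' τ).re = (bv a τ).re + (j : ℝ) * (bv b τ).re := by
      rw [ha', h9, Complex.add_re, ← Complex.ofReal_intCast, Complex.re_ofReal_mul]
    have e6 : (H τ).re = (k τ).re / 2 - (α τ).re + j * (y τ).re := by
      rw [hH]
      simp only [Complex.add_re, Complex.sub_re]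
      rw [← Complex.ofReal_intCast, Complex.re_ofReal_mul]
      congr 2
      have : k τ / 2 = ((1 / 2 : ℝ) : ℂ) * k τ := by push_cast; ring
      rw [this, Complex.re_ofReal_mul]
      ring
    rw [e5, e6, e3, hj']
    rw [hn'] at e4
    nlinarith
  -- a small ball
  obtain ⟨r₁, hr₁, hre'⟩ := hre
  obtain ⟨r₂, hr₂, hHd⟩ := Metric.eventually_nhds_iff_ball.1 hHa.eventually_analyticAt
  set r := min 1 (min r₁ r₂) with hr
  have hr0 : 0 < r := lt_min one_pos (lt_min hr₁ hr₂)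
  have hbr : ∀ᵐ τ : ℝ, (τ : ℂ) ∈ ball (τ₀ : ℂ) r → (bv a' τ).re = (H τ).re := by
    filter_upwards [hre'] with τ h1 h2
    refine h1 ?_
    rw [mem_ball, dist_eq_norm, ← Complex.ofReal_sub, Complex.norm_real, Real.norm_eq_abs] at h2
    exact h2.trans_le ((min_le_right _ _).trans (min_le_left _ _))
  obtain ⟨G, hG, hGe⟩ := local_ext (a := a') (D := D + |(j : ℝ)|)
    (add_nonneg h.D0 (abs_nonneg _)) ha'b (c := τ₀) (r := r) hr0 (min_le_left _ _) (H := H)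
    (fun z hz => (hHd z (ball_subset_ball ((min_le_right _ _).trans (min_le_right _ _)) hz)
      ).differentiableAt.differentiableWithinAt) hbr
  have hGa : AnalyticAt ℂ G τ₀ := hG.analyticAt (ball_mem_nhds _ hr0)
  -- the extension
  set F₀ : ℂ → ℂ := fun ζ => Complex.exp (α ζ + G ζ - j * y ζ) with hF₀
  have hF₀a : AnalyticAt ℂ F₀ τ₀ := ((hα.add hGa).sub (analyticAt_const.mul hy)).cexp
  refine ⟨m, fun ζ => (ζ - τ₀) ^ m * F₀ ζ, ?_, ?_, ?_, ?_⟩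
  · have h1 : MeromorphicAt (fun ζ : ℂ => ζ - τ₀) τ₀ :=
      (analyticAt_id.sub analyticAt_const).meromorphicAt
    exact (h1.zpow m).mul hF₀a.meromorphicAt
  · have h1 : MeromorphicAt (fun ζ : ℂ => (ζ - τ₀) ^ m * F₀ ζ) τ₀ :=
      (((analyticAt_id.sub analyticAt_const).meromorphicAt : MeromorphicAt
        (fun ζ : ℂ => ζ - τ₀) τ₀).zpow m).mul hF₀a.meromorphicAt
    rw [meromorphicOrderAt_eq_int_iff h1]
    exact ⟨F₀, hF₀a, Complex.exp_ne_zero _, Eventually.of_forall fun ζ => by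
      rw [smul_eq_mul]⟩
  · rw [← hn, hm2]
  · have hball : ∀ᶠ ζ : ℂ in 𝓝 (τ₀ : ℂ), ζ ∈ ball (τ₀ : ℂ) r := ball_mem_nhds _ hr0
    have hAe' := eventually_nhdsWithin_iff.1 hAe
    filter_upwards [hball, hAe', hαe, hye, hev] with ζ h1 h2 h3 h4 h5 him
    have hne : ζ ≠ (τ₀ : ℂ) := by
      intro h6
      rw [h6] at him
      simp at him
    have hne' : ζ - (τ₀ : ℂ) ≠ 0 := sub_ne_zero.2 hne
    have h6 := hGe ζ h1 him
    rw [ha', gg_add_mul h.D0 h.ha hb _ him] at h6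
    have h7 := h5 him
    have h8 := h2 hne
    rw [h.eqL ζ him, h8, smul_eq_mul, h3]
    have h9 : gg a ζ = G ζ - j * gg b ζ := by
      rw [h6]
      ring
    rw [hF₀, h9]
    simp only
    have h10 : Complex.exp (j * gg b ζ) = Complex.exp (j * y ζ) * (ζ - τ₀) ^ (-j) := by
      rw [Complex.exp_int_mul, h7, mul_zpow, h4, ← Complex.exp_int_mul, inv_zpow', ]
    have h11 : (ζ - τ₀) ^ m = (ζ - τ₀) ^ q * (ζ - τ₀) ^ j := by
      rw [← zpow_add₀ hne', hj]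
      congr 1
      ring
    have h12 : (ζ - τ₀) ^ (-j) * (ζ - τ₀) ^ j = 1 := by
      rw [← zpow_add₀ hne']
      simp
    have h13 : (ζ - τ₀) ^ j ≠ 0 := zpow_ne_zero _ hne'
    have h14 : (ζ - τ₀) ^ (-j) ≠ 0 := zpow_ne_zero _ hne'
    rw [Complex.exp_sub, Complex.exp_sub, Complex.exp_add, h10, h11]
    have h15 := Complex.exp_ne_zero ((j : ℂ) * y ζ)
    field_simp
    rw [mul_comm, h12]

end

end Pool.Agent.R385.MC
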