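import Mathlib

/-!
# The edge of the L-function of a motive over `ℚ`: definitions

`M` is a Chow motive over `ℚ`, `w` an integer and `N` the dimension of `H^w(M)`.  The Euler product
`L(s) = L^w(M, s)` converges absolutely for `Re s > w/2 + 1`.
-/

set_option autoImplicit false

namespace Pool.Agent.R385.MC

open Filter Topology Polynomial

/-- The polynomials `B p`, `p` prime, are the denominators of the Euler factors of an `L`-function of
weight `w` and degree `N`: for all large primes `p` there are complex numbers `α_1, …, α_N` of absolute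
value `p^{w/2}`, the eigenvalues of the geometric Frobenius, such that `B_p(z) = ∏ (1 - α_j z)`; at the
other primes `B_p` is an arbitrary nonzero polynomial.  By the theorem of Deligne this holds for
`L^w(M, s)`, for every Chow motive `M` over `ℚ`, every integer `w` and every choice of the auxiliary
primes. -/
def IsEuler (w : ℤ) (N : ℕ) (B : ℕ → ℂ[X]) : Prop :=
  (∀ᶠ p : ℕ in atTop, p.Prime → ∃ α : Fin N → ℂ, (∀ j, ‖α j‖ = (p : ℝ) ^ ((w : ℝ) / 2)) ∧
    ∀ z : ℂ, (B p).eval z = ∏ j, (1 - α j * z)) ∧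
  ∀ p : ℕ, p.Prime → B p ≠ 0

/-- The Euler factor `1 / B_p(p^{-s})`. -/
noncomputable def factor (B : ℕ → ℂ[X]) (p : ℕ) (s : ℂ) : ℂ := ((B p).eval ((p : ℂ) ^ (-s)))⁻¹

/-- The Euler product. -/
noncomputable def LFun (B : ℕ → ℂ[X]) (s : ℂ) : ℂ := ∏' p : Nat.Primes, factor B p s

/-- The point `w/2 + 1 + iτ` of the edge of the half-plane of absolute convergence. -/
noncomputable def edge (w : ℤ) (τ : ℝ) : ℂ := (w : ℂ) / 2 + 1 + τ * Complex.I

/-- The modulus of the Euler product on the edge, `Λ(τ) = lim_{x → ∞} ∏_{p < x} |L_p(w/2 + 1 + iτ)|`. -/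
noncomputable def modulus (w : ℤ) (B : ℕ → ℂ[X]) (τ : ℝ) : ℝ :=
  limUnder atTop fun x : ℕ => ∏ p ∈ Nat.primesBelow x, ‖factor B p (edge w τ)‖

/-- The open set `U` is symmetric with respect to the edge line `Re s = w/2 + 1`. -/
def IsSymm (w : ℤ) (U : Set ℂ) : Prop :=
  IsOpen U ∧ ∀ s ∈ U, (w : ℂ) + 2 - (starRingEnd ℂ) s ∈ U

end Pool.Agent.R385.MC
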