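import Pool.Agent.W350.Edge6
import Pool.Agent.R385.MC.Bdry
import Pool.Agent.R385.MC.Defs

/-!
# The decomposition of the Euler product
-/

set_option autoImplicit false

namespace Pool.Agent.R385.MC

open Complex Filter Topology MeasureTheory Metric Finset Pool.Agent.W350.Edge Polynomial

section

variable {t : ℕ → ℕ → ℂ} {S : Finset ℕ} {D w : ℝ}

lemma T_bound' (ht : WB t w S D) {p : ℕ} (hp : p.Prime) (hpS : p ∉ S) (m : ℕ) {s : ℂ}
    (hs : w / 2 + 3 / 4 ≤ s.re) :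
    ‖t p (m + 1) * (p : ℂ) ^ (-((m + 1 : ℂ) * s)) / (m + 1 : ℂ)‖ ≤
      D * ((p : ℝ) ^ (-(3 / 4) : ℝ)) ^ (m + 1) := by
  have hp0 : (0 : ℝ) < p := by exact_mod_cast hp.pos
  have hp1 : (1 : ℝ) ≤ p := by exact_mod_cast hp.one_le
  have hD := ht.nonneg
  have h1 : ‖(p : ℂ) ^ (-((m + 1 : ℂ) * s))‖ = ((p : ℝ) ^ (-s.re)) ^ (m + 1) := by
    rw [Complex.norm_natCast_cpow_of_pos hp.pos, ← Real.rpow_natCast, ← Real.rpow_mul hp0.le]
    congr 1
    simp [Complex.mul_re]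
    ring
  have h2 : ‖((m : ℂ) + 1)‖ = m + 1 := by
    have : ((m : ℂ) + 1) = ((m + 1 : ℕ) : ℂ) := by push_cast; rfl
    rw [this, Complex.norm_natCast]
    push_cast
    rfl
  rw [norm_div, norm_mul, h1, h2]
  have h3 : (1 : ℝ) ≤ m + 1 := by
    have : (0 : ℝ) ≤ m := Nat.cast_nonneg m
    linarith
  have h4 : (p : ℝ) ^ (-s.re) ≤ (p : ℝ) ^ (-(w / 2 + 3 / 4)) :=
    Real.rpow_le_rpow_of_exponent_le hp1 (by linarith)
  have h5 : (p : ℝ) ^ (w / 2) * (p : ℝ) ^ (-(w / 2 + 3 / 4)) = (p : ℝ) ^ (-(3 / 4) : ℝ) := by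
    rw [← Real.rpow_add hp0]
    congr 1
    ring
  calc ‖t p (m + 1)‖ * ((p : ℝ) ^ (-s.re)) ^ (m + 1) / (m + 1)
      ≤ ‖t p (m + 1)‖ * ((p : ℝ) ^ (-s.re)) ^ (m + 1) := div_le_self (by positivity) h3
    _ ≤ (D * ((p : ℝ) ^ (w / 2)) ^ (m + 1)) * ((p : ℝ) ^ (-(w / 2 + 3 / 4))) ^ (m + 1) := by
        refine mul_le_mul (ht p hp hpS m) (pow_le_pow_left₀ (by positivity) h4 _)
          (by positivity) (by positivity)
    _ = D * ((p : ℝ) ^ (w / 2) * (p : ℝ) ^ (-(w / 2 + 3 / 4))) ^ (m + 1) := by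
        rw [mul_pow]
        ring
    _ = _ := by rw [h5]

lemma rp_le {p : ℕ} (hp : p.Prime) : (p : ℝ) ^ (-(3 / 4) : ℝ) ≤ 3 / 5 := by
  have hp0 : (0 : ℝ) < p := by exact_mod_cast hp.pos
  have h1 : (p : ℝ) ^ (-(3 / 4) : ℝ) ≤ (2 : ℝ) ^ (-(3 / 4) : ℝ) :=
    Real.rpow_le_rpow_of_nonpos two_pos (by exact_mod_cast hp.two_le) (by norm_num)
  refine h1.trans ?_
  have h2 : ((2 : ℝ) ^ (-(3 / 4) : ℝ)) ^ 4 ≤ (3 / 5 : ℝ) ^ 4 := by
    rw [← Real.rpow_natCast, ← Real.rpow_mul (by norm_num)]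
    norm_num
  exact le_of_pow_le_pow_left₀ (by norm_num) (by norm_num) h2

/-- The contribution of the higher powers is holomorphic beyond the edge. -/
lemma diff_RR (ht : WB t w S D) :
    DifferentiableOn ℂ (fun s => ∑' p, RR t S p s) {s : ℂ | w / 2 + 3 / 4 < s.re} := by
  have hD := ht.nonneg
  have hopen : IsOpen {s : ℂ | w / 2 + 3 / 4 < s.re} := isOpen_lt continuous_const continuous_re
  -- the geometric bound
  have hgs : ∀ p : ℕ, p.Prime →
      Summable fun m : ℕ => D * ((p : ℝ) ^ (-(3 / 4) : ℝ)) ^ (m + 1 + 1) := by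
    intro p hp
    refine Summable.mul_left _ ?_
    have hp0 : (0 : ℝ) < p := by exact_mod_cast hp.pos
    have h1 : Summable fun m : ℕ => ((p : ℝ) ^ (-(3 / 4) : ℝ)) ^ m :=
      summable_geometric_of_lt_one (by positivity) ((rp_le hp).trans_lt (by norm_num))
    exact (summable_nat_add_iff 2).2 h1
  have hgt : ∀ p : ℕ, p.Prime → ∑' m : ℕ, D * ((p : ℝ) ^ (-(3 / 4) : ℝ)) ^ (m + 1 + 1) ≤
      3 * D * (1 / (p : ℝ) ^ (3 / 2 : ℝ)) := by
    intro p hp
    have hp0 : (0 : ℝ) < p := by exact_mod_cast hp.pos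
    set u := (p : ℝ) ^ (-(3 / 4) : ℝ) with hu
    have hu0 : 0 ≤ u := by positivity
    have hu1 : u ≤ 3 / 5 := rp_le hp
    have hu2 : u ^ 2 = 1 / (p : ℝ) ^ (3 / 2 : ℝ) := by
      rw [hu, ← Real.rpow_natCast, ← Real.rpow_mul hp0.le, one_div, ← Real.rpow_neg hp0.le]
      congr 1
      norm_num
    have h1 : ∀ m : ℕ, D * u ^ (m + 1 + 1) = D * u ^ 2 * u ^ m := fun m => by ring
    rw [tsum_congr h1, tsum_mul_left, tsum_geometric_of_lt_one hu0 (hu1.trans_lt (by norm_num)), ← hu2]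
    have h2 : (1 - u)⁻¹ ≤ 3 := by
      rw [inv_le_comm₀ (by linarith) (by norm_num)]
      linarith
    calc D * u ^ 2 * (1 - u)⁻¹ ≤ D * u ^ 2 * 3 := by gcongr
      _ = 3 * D * u ^ 2 := by ring
  refine differentiableOn_tsum_of_summable_norm
    (u := fun p : ℕ => 3 * D * (1 / (p : ℝ) ^ (3 / 2 : ℝ)))
    ((Real.summable_one_div_nat_rpow.2 (by norm_num)).mul_left _) ?_ hopen ?_
  · intro p
    by_cases h : p.Prime ∧ p ∉ S
    · have he : RR t S p = fun s => ∑' m : ℕ, t p (m + 1 + 1) *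
          (p : ℂ) ^ (-(((m + 1 : ℕ) + 1 : ℂ) * s)) / ((m + 1 : ℕ) + 1 : ℂ) := by
        funext s
        unfold RR
        rw [if_pos h]
      rw [he]
      refine differentiableOn_tsum_of_summable_norm (hgs p h.1) ?_ hopen ?_
      · intro m
        have hp : (p : ℂ) ≠ 0 := by exact_mod_cast h.1.ne_zero
        refine Differentiable.differentiableOn ?_
        refine Differentiable.div_const (Differentiable.const_mul ?_ _) _
        refine Differentiable.const_cpow (by fun_prop) (Or.inl hp)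
      · intro m s hs
        exact T_bound' ht h.1 h.2 (m + 1) (le_of_lt hs)
    · have he : RR t S p = fun _ => 0 := by
        funext s
        unfold RR
        rw [if_neg h]
      rw [he]
      exact differentiableOn_const _
  · intro p s hs
    unfold RR
    split_ifs with h
    · refine le_trans ?_ (hgt p h.1)
      exact tsum_of_norm_bounded (hgs p h.1).hasSum fun m =>
        T_bound' ht h.1 h.2 (m + 1) (le_of_lt hs)
    · rw [norm_zero]
      positivity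

end

/-- The exponential of the logarithm of a good factor. -/
lemma exp_logF {N : ℕ} {w : ℝ} {p : ℕ} (hp : p.Prime) (α : Fin N → ℂ)
    (hα : ∀ j, ‖α j‖ = (p : ℝ) ^ (w / 2)) (t : ℕ → ℕ → ℂ) (ht : ∀ m, t p m = ∑ j, α j ^ m)
    {s : ℂ} (hs : w / 2 < s.re) :
    Complex.exp (logF t p s) = (∏ j, (1 - α j * (p : ℂ) ^ (-s)))⁻¹ := by
  have hp0 : (0 : ℝ) < p := by exact_mod_cast hp.pos
  have hpc : (p : ℂ) ≠ 0 := by exact_mod_cast hp.ne_zero
  have hnorm : ∀ j, ‖α j * (p : ℂ) ^ (-s)‖ < 1 := by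
    intro j
    rw [norm_mul, hα, Complex.norm_natCast_cpow_of_pos hp.pos, ← Real.rpow_add hp0]
    refine Real.rpow_lt_one_of_one_lt_of_neg (by exact_mod_cast hp.one_lt) ?_
    rw [Complex.neg_re]
    linarith
  have h1 : ∀ j, HasSum (fun m : ℕ => (α j * (p : ℂ) ^ (-s)) ^ (m + 1) / ((m + 1 : ℕ) : ℂ))
      (-Complex.log (1 - α j * (p : ℂ) ^ (-s))) := by
    intro j
    have h2 := Complex.hasSum_taylorSeries_neg_log (hnorm j)
    rw [← hasSum_nat_add_iff' 1] at h2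
    simpa using h2
  have h2 : HasSum (fun m : ℕ => t p (m + 1) * (p : ℂ) ^ (-((m + 1 : ℂ) * s)) / (m + 1 : ℂ))
      (∑ j, -Complex.log (1 - α j * (p : ℂ) ^ (-s))) := by
    refine (hasSum_sum fun j _ => h1 j).congr_fun fun m => ?_
    rw [ht, sum_mul, sum_div]
    refine sum_congr rfl fun j _ => ?_
    rw [mul_pow, ← Complex.cpow_nat_mul]
    push_cast
    congr 3
    ring
  unfold logF
  rw [h2.tsum_eq, Complex.exp_sum, ← prod_inv_distrib]
  refine prod_congr rfl fun j _ => ?_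
  rw [Complex.exp_neg, Complex.exp_log]
  intro h3
  have h4 := hnorm j
  have h5 : α j * (p : ℂ) ^ (-s) = 1 := by linear_combination -h3
  rw [h5, norm_one] at h4
  exact lt_irrefl _ h4

end Pool.Agent.R385.MC
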