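import Pool.Agent.R385.MC.Crit

/-!
# The global criterion
-/

set_option autoImplicit false

namespace Pool.Agent.R385.MC

open Complex Filter Topology MeasureTheory Metric Finset Pool.Agent.W350.Edge

/-- The reflection of a function in the real axis. -/
noncomputable def rf (F : ℂ → ℂ) (ζ : ℂ) : ℂ := (starRingEnd ℂ) (F ((starRingEnd ℂ) ζ))

lemma tendsto_conj (c : ℂ) : Tendsto (starRingEnd ℂ) (𝓝 c) (𝓝 ((starRingEnd ℂ) c)) :=
  Complex.continuous_conj.tendsto c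

lemma tendsto_conj_ne (c : ℂ) :
    Tendsto (starRingEnd ℂ) (𝓝[≠] c) (𝓝[≠] ((starRingEnd ℂ) c)) := by
  refine tendsto_nhdsWithin_iff.2 ⟨(tendsto_conj c).mono_left nhdsWithin_le_nhds, ?_⟩
  filter_upwards [self_mem_nhdsWithin] with z hz h
  exact hz ((starRingEnd ℂ).injective h)

lemma rf_analyticAt {F : ℂ → ℂ} {c : ℂ} (h : AnalyticAt ℂ F ((starRingEnd ℂ) c)) :
    AnalyticAt ℂ (rf F) c := by
  rw [Complex.analyticAt_iff_eventually_differentiableAt] at h ⊢
  filter_upwards [(tendsto_conj c).eventually h] with z hz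
  have h3 := hz.conj_conj
  rw [Complex.conj_conj] at h3
  exact h3

lemma rf_meromorphicAt {F : ℂ → ℂ} {c : ℂ} (h : MeromorphicAt F ((starRingEnd ℂ) c)) :
    MeromorphicAt (rf F) c := by
  obtain ⟨n, hn⟩ := h
  refine ⟨n, ?_⟩
  have h1 := rf_analyticAt hn
  refine h1.congr (Eventually.of_forall fun z => ?_)
  unfold rf
  simp

lemma rf_order {F : ℂ → ℂ} {c : ℝ} {m : ℤ} (h : MeromorphicAt F c)
    (hm : meromorphicOrderAt F c = m) : meromorphicOrderAt (rf F) c = m := by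
  have hc : (starRingEnd ℂ) (c : ℂ) = c := Complex.conj_ofReal c
  have h' : MeromorphicAt (rf F) c := rf_meromorphicAt (by rw [hc]; exact h)
  rw [meromorphicOrderAt_eq_int_iff h'] 
  obtain ⟨g, hg, hg0, hge⟩ := (meromorphicOrderAt_eq_int_iff h).1 hm
  refine ⟨rf g, rf_analyticAt (by rw [hc]; exact hg), ?_, ?_⟩
  · unfold rf
    rw [hc]
    simpa using hg0
  · have h1 := tendsto_conj_ne (c : ℂ)
    rw [hc] at h1
    filter_upwards [h1.eventually hge] with z hz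
    unfold rf
    rw [hz, smul_eq_mul, smul_eq_mul, map_mul, map_zpow₀, map_sub, Complex.conj_conj, hc]

section

variable {L : ℂ → ℂ} {lam : ℝ → ℝ} {a : ℕ → ℂ} {D : ℝ} {A : ℂ → ℂ}

/-- Points approached from below. -/
lemma tendsto_below (τ : ℝ) : Tendsto (fun ε : ℝ => (τ : ℂ) - I * ε) (𝓝[>] 0) (𝓝 τ) := by
  have h5 : Continuous fun ε : ℝ => (τ : ℂ) - I * ε := by fun_prop
  have h6 := h5.tendsto 0
  simp only [Complex.ofReal_zero, mul_zero, sub_zero] at h6
  exact h6.mono_left nhdsWithin_le_nhds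

/-- The modulus of a local extension on the axis. -/
lemma Dec.lam_eq (h : Dec L lam a D A) {τ₀ : ℝ} {F : ℂ → ℂ} (hF : MeromorphicAt F τ₀)
    (hFL : ∀ᶠ ζ : ℂ in 𝓝 (τ₀ : ℂ), ζ.im < 0 → F ζ = L ζ) :
    NearR τ₀ fun τ => lam τ = ‖F τ‖ := by
  have h1 : NearR τ₀ fun τ => AnalyticAt ℂ F τ := NearR.of_punctured hF.eventually_analyticAt
  have h2 : NearR τ₀ fun τ => ∀ᶠ ζ : ℂ in 𝓝 (τ : ℂ), ζ.im < 0 → F ζ = L ζ :=
    NearR.of_nhds hFL.eventually_nhds
  refine ((h1.and h2).and ((h.continuousAt τ₀).and (NearR.of_ae h.radial))).mono ?_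
  rintro τ ⟨⟨h3, h4⟩, h5, h6⟩
  have h7 := h6 h5.1.continuousAt
  have h8 : Tendsto (fun ε : ℝ => ‖L (τ - I * ε)‖) (𝓝[>] 0) (𝓝 ‖F τ‖) := by
    refine ((h3.continuousAt.tendsto.comp (tendsto_below τ)).norm).congr' ?_
    filter_upwards [(tendsto_below τ).eventually h4, self_mem_nhdsWithin] with ε h9 hε
    have hε' : 0 < ε := hε
    simp only [Function.comp_apply]
    rw [h9 (by simpa using hε')]
  exact tendsto_nhds_unique h7 h8

/-- The square of the modulus from a local extension. -/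
lemma Dec.sq_eq (h : Dec L lam a D A) {τ₀ : ℝ} {F : ℂ → ℂ} (hF : MeromorphicAt F τ₀)
    (hFL : ∀ᶠ ζ : ℂ in 𝓝 (τ₀ : ℂ), ζ.im < 0 → F ζ = L ζ) :
    NearR τ₀ fun τ => F τ * rf F τ = ((lam τ ^ 2 : ℝ) : ℂ) := by
  refine (h.lam_eq hF hFL).mono fun τ h1 => ?_
  unfold rf
  rw [Complex.conj_ofReal, Complex.mul_conj, Complex.normSq_eq_norm_sq, h1]

/-- **The local theorem.** -/
theorem Dec.local_iff (h : Dec L lam a D A) {b : ℕ → ℂ} {Y : ℂ → ℂ} {τ₀ : ℝ} (hp : Piece b Y τ₀)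
    (m : ℤ) :
    (∃ F : ℂ → ℂ, MeromorphicAt F τ₀ ∧ meromorphicOrderAt F τ₀ = m ∧
      ∀ᶠ ζ : ℂ in 𝓝 (τ₀ : ℂ), ζ.im < 0 → F ζ = L ζ) ↔
    (∃ K : ℂ → ℂ, MeromorphicAt K τ₀ ∧ meromorphicOrderAt K τ₀ = (2 * m : ℤ) ∧
      NearR τ₀ fun τ => K τ = ((lam τ ^ 2 : ℝ) : ℂ)) := by
  constructor
  · rintro ⟨F, hF, hm, hFL⟩
    have hc : (starRingEnd ℂ) (τ₀ : ℂ) = τ₀ := Complex.conj_ofReal τ₀
    have h1 : MeromorphicAt (rf F) τ₀ := rf_meromorphicAt (by rw [hc]; exact hF)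
    refine ⟨fun ζ => F ζ * rf F ζ, hF.mul h1, ?_, h.sq_eq hF hFL⟩
    have h2 := meromorphicOrderAt_mul hF h1
    rw [hm, rf_order hF hm] at h2
    have h3 : (fun ζ => F ζ * rf F ζ) = F * rf F := rfl
    rw [h3, h2, two_mul]
    rfl
  · rintro ⟨K, hK, hm, hKl⟩
    obtain ⟨m', F, hF, hFm, hKm, hFL⟩ := local_crit h hp hK hKl
    refine ⟨F, hF, ?_, hFL⟩
    rw [hm] at hKm
    have h1 : (2 * m : ℤ) = 2 * m' := WithTop.coe_injective hKm
    rw [hFm]
    congr 1
    omega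

/-- The extension of `L` by reflection. -/
noncomputable def ext (L K : ℂ → ℂ) (ζ : ℂ) : ℂ :=
  if ζ.im < 0 then L ζ else if 0 < ζ.im then K ζ / rf L ζ else
    limUnder (𝓝[>] (0 : ℝ)) fun ε : ℝ => L (ζ - I * ε)

/-- The extension agrees with the local extensions. -/
lemma ext_eq (h : Dec L lam a D A) {K : ℂ → ℂ} {τ₀ : ℝ} (hK : MeromorphicAt K τ₀)
    (hKl : NearR τ₀ fun τ => K τ = ((lam τ ^ 2 : ℝ) : ℂ)) {F : ℂ → ℂ} (hF : MeromorphicAt F τ₀)
    {m : ℤ} (hm : meromorphicOrderAt F τ₀ = m)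
    (hFL : ∀ᶠ ζ : ℂ in 𝓝 (τ₀ : ℂ), ζ.im < 0 → F ζ = L ζ) :
    ∀ᶠ ζ in 𝓝[≠] (τ₀ : ℂ), ext L K ζ = F ζ := by
  have hc : (starRingEnd ℂ) (τ₀ : ℂ) = τ₀ := Complex.conj_ofReal τ₀
  have h1 : MeromorphicAt (rf F) τ₀ := rf_meromorphicAt (by rw [hc]; exact hF)
  -- `K = F * rf F`
  have h2 : ∀ᶠ ζ in 𝓝[≠] (τ₀ : ℂ), F ζ * rf F ζ = K ζ := by
    refine ((hF.mul h1).frequently_eq_iff_eventuallyEq hK).1 ?_
    have h3 : ∃ᶠ τ : ℝ in 𝓝[>] τ₀, F τ * rf F τ = K τ :=
      (((h.sq_eq hF hFL).and hKl).mono fun τ h4 => h4.1.trans h4.2.symm).frequently_gt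
    have h4 : Tendsto (fun τ : ℝ => (τ : ℂ)) (𝓝[>] τ₀) (𝓝[≠] (τ₀ : ℂ)) := by
      refine tendsto_nhdsWithin_iff.2
        ⟨(Complex.continuous_ofReal.tendsto τ₀).mono_left nhdsWithin_le_nhds, ?_⟩
      filter_upwards [self_mem_nhdsWithin] with τ hτ h5
      have h6 : (τ : ℂ) = (τ₀ : ℂ) := h5
      have h7 : τ = τ₀ := by exact_mod_cast h6
      have h8 : τ₀ < τ := hτ
      linarith
    exact h4.frequently h3
  have h3 : ∀ᶠ ζ in 𝓝[≠] (τ₀ : ℂ), F ζ ≠ 0 := by
    refine (meromorphicOrderAt_ne_top_iff_eventually_ne_zero hF).1 ?_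
    rw [hm]
    exact WithTop.coe_ne_top
  have h4 : ∀ᶠ ζ in 𝓝[≠] (τ₀ : ℂ), F ((starRingEnd ℂ) ζ) ≠ 0 := by
    have := tendsto_conj_ne (τ₀ : ℂ)
    rw [hc] at this
    exact this.eventually h3
  have h5 : ∀ᶠ ζ in 𝓝 (τ₀ : ℂ), (((starRingEnd ℂ) ζ).im < 0 →
      F ((starRingEnd ℂ) ζ) = L ((starRingEnd ℂ) ζ)) := by
    have := tendsto_conj (τ₀ : ℂ)
    rw [hc] at this
    exact this.eventually hFL
  have h6 : ∀ᶠ ζ in 𝓝[≠] (τ₀ : ℂ), AnalyticAt ℂ F ζ := hF.eventually_analyticAt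
  have h7 : ∀ᶠ ζ in 𝓝 (τ₀ : ℂ), ∀ᶠ z : ℂ in 𝓝 ζ, z.im < 0 → F z = L z := hFL.eventually_nhds
  filter_upwards [h2, h4, nhdsWithin_le_nhds hFL, nhdsWithin_le_nhds h5, h6,
    nhdsWithin_le_nhds h7] with ζ e2 e4 e5 e6 e7 e8
  unfold ext
  split_ifs with h9 h10
  · exact (e5 h9).symm
  · have e9 : rf L ζ = rf F ζ := by
      unfold rf
      rw [e6 (by simpa using h10)]
    rw [e9, ← e2]
    have e10 : rf F ζ ≠ 0 := by
      unfold rf
      simpa using e4
    field_simp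
  · have h11 : ζ.im = 0 := le_antisymm (not_lt.1 h10) (not_lt.1 h9)
    have h12 : ζ = ((ζ.re : ℝ) : ℂ) := by
      apply Complex.ext <;> simp [h11]
    refine Tendsto.limUnder_eq ?_
    have h13 : Tendsto (fun ε : ℝ => ζ - I * ε) (𝓝[>] 0) (𝓝 ζ) := by
      have := tendsto_below ζ.re
      rw [← h12] at this
      exact this
    refine (e7.continuousAt.tendsto.comp h13).congr' ?_
    filter_upwards [h13.eventually e8, self_mem_nhdsWithin] with ε h14 hε
    have hε' : 0 < ε := hε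
    simp only [Function.comp_apply]
    exact h14 (by simp [h11]; exact hε')

lemma Dec.L_mer (h : Dec L lam a D A) {ζ : ℂ} (hζ : ζ.im < 0) : MeromorphicAt L ζ := by
  have h1 : MeromorphicAt (fun z => A z * Complex.exp (gg a z)) ζ := by
    refine (h.mer ζ hζ.le).mul (AnalyticAt.meromorphicAt ?_)
    refine AnalyticAt.cexp ?_
    exact (gg_diff h.D0 h.ha).analyticAt
      ((isOpen_lt continuous_im continuous_const).mem_nhds hζ)
  refine h1.congr (nhdsWithin_le_nhds ?_)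
  filter_upwards [(isOpen_lt continuous_im continuous_const).mem_nhds hζ] with z hz
  exact (h.eqL z hz).symm

/-- **The global theorem.** -/
theorem Dec.global_iff (h : Dec L lam a D A) (hp : ∀ τ₀ : ℝ, ∃ b Y, Piece b Y τ₀) {U : Set ℂ}
    (hU : IsOpen U) (hUs : ∀ ζ ∈ U, (starRingEnd ℂ) ζ ∈ U) :
    (∃ F : ℂ → ℂ, MeromorphicOn F U ∧ ∀ ζ ∈ U, ζ.im < 0 → F ζ = L ζ) ↔
    (∃ K : ℂ → ℂ, MeromorphicOn K U ∧ ∀ᵐ τ : ℝ, (τ : ℂ) ∈ U → K τ = ((lam τ ^ 2 : ℝ) : ℂ)) := by
  constructor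
  · rintro ⟨F, hF, hFL⟩
    refine ⟨fun ζ => F ζ * rf F ζ, fun ζ hζ => (hF ζ hζ).mul
      (rf_meromorphicAt (hF _ (hUs ζ hζ))), ?_⟩
    set T : Set ℝ := {τ : ℝ | (τ : ℂ) ∈ U ∧ ¬ (F τ * rf F τ = ((lam τ ^ 2 : ℝ) : ℂ))} with hT
    have h1 : volume T = 0 := by
      refine measure_null_of_locally_null T fun τ₀ hτ₀ => ?_
      have h2 : ∀ᶠ ζ : ℂ in 𝓝 (τ₀ : ℂ), ζ.im < 0 → F ζ = L ζ := by
        filter_upwards [hU.mem_nhds hτ₀.1] with ζ hζ
        exact hFL ζ hζ
      obtain ⟨r, hr, h3⟩ := h.sq_eq (hF _ hτ₀.1) h2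
      refine ⟨T ∩ ball τ₀ r, inter_mem self_mem_nhdsWithin
        (nhdsWithin_le_nhds (ball_mem_nhds _ hr)), ?_⟩
      rw [ae_iff] at h3
      refine measure_mono_null ?_ h3
      rintro τ ⟨h4, h5⟩
      simp only [Set.mem_ofPred_eq, Classical.not_imp]
      exact ⟨by simpa [Real.dist_eq] using h5, h4.2⟩
    rw [ae_iff]
    refine measure_mono_null ?_ h1
    intro τ hτ
    simp only [Set.mem_ofPred_eq, Classical.not_imp] at hτ
    exact hτ
  · rintro ⟨K, hK, hKl⟩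
    refine ⟨ext L K, ?_, ?_⟩
    · intro ζ hζ
      rcases lt_trichotomy ζ.im 0 with h1 | h1 | h1
      · refine (h.L_mer h1).congr (nhdsWithin_le_nhds ?_)
        filter_upwards [(isOpen_lt continuous_im continuous_const).mem_nhds h1] with z hz
        have hz' : z.im < 0 := hz
        unfold ext
        rw [if_pos hz']
      · have h2 : ζ = ((ζ.re : ℝ) : ℂ) := by
          apply Complex.ext <;> simp [h1]
        obtain ⟨b, Y, hbY⟩ := hp ζ.re
        have hKm : MeromorphicAt K ((ζ.re : ℝ) : ℂ) := by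
          rw [← h2]
          exact hK ζ hζ
        have hKn : NearR ζ.re fun τ => K τ = ((lam τ ^ 2 : ℝ) : ℂ) := by
          have h3 : NearR ζ.re fun τ => (τ : ℂ) ∈ U := by
            refine NearR.of_nhds ?_
            rw [← h2]
            exact hU.mem_nhds hζ
          exact (h3.and (NearR.of_ae hKl)).mono fun τ h4 => h4.2 h4.1
        obtain ⟨m, F, hF, hFm, -, hFL⟩ := local_crit h hbY hKm hKn
        have h3 := ext_eq h hKm hKn hF hFm hFL
        rw [h2]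
        exact hF.congr (h3.mono fun z hz => hz.symm)
      · have h2 : MeromorphicAt (rf L) ζ := rf_meromorphicAt (h.L_mer (by simpa using h1))
        refine ((hK ζ hζ).div h2).congr (nhdsWithin_le_nhds ?_)
        filter_upwards [(isOpen_lt continuous_const continuous_im).mem_nhds h1] with z hz
        have hz' : 0 < z.im := hz
        unfold ext
        rw [if_neg (not_lt.2 hz'.le), if_pos hz']
        rfl
    · intro ζ _ h1
      unfold ext
      rw [if_pos h1]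

/-- **The global theorem for holomorphic continuation.** -/
theorem Dec.global_diff (h : Dec L lam a D A) (hp : ∀ τ₀ : ℝ, ∃ b Y, Piece b Y τ₀) {U : Set ℂ}
    (hU : IsOpen U) (hUs : ∀ ζ ∈ U, (starRingEnd ℂ) ζ ∈ U)
    (hA : ∀ ζ : ℂ, ζ.im < 0 → AnalyticAt ℂ A ζ ∧ A ζ ≠ 0) :
    (∃ F : ℂ → ℂ, DifferentiableOn ℂ F U ∧ ∀ ζ ∈ U, ζ.im < 0 → F ζ = L ζ) ↔
    (∃ K : ℂ → ℂ, DifferentiableOn ℂ K U ∧
      ∀ᵐ τ : ℝ, (τ : ℂ) ∈ U → K τ = ((lam τ ^ 2 : ℝ) : ℂ)) := by
  constructor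
  · rintro ⟨F, hF, hFL⟩
    refine ⟨fun ζ => F ζ * rf F ζ, ?_, ?_⟩
    · intro ζ hζ
      have h1 : AnalyticAt ℂ F ζ := hF.analyticAt (hU.mem_nhds hζ)
      have h2 : AnalyticAt ℂ (rf F) ζ :=
        rf_analyticAt (hF.analyticAt (hU.mem_nhds (hUs ζ hζ)))
      exact (h1.mul h2).differentiableAt.differentiableWithinAt
    · have h1 : MeromorphicOn F U := fun ζ hζ => (hF.analyticAt (hU.mem_nhds hζ)).meromorphicAt
      set T : Set ℝ := {τ : ℝ | (τ : ℂ) ∈ U ∧ ¬ (F τ * rf F τ = ((lam τ ^ 2 : ℝ) : ℂ))} with hT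
      have h1 : volume T = 0 := by
        refine measure_null_of_locally_null T fun τ₀ hτ₀ => ?_
        have h2 : ∀ᶠ ζ : ℂ in 𝓝 (τ₀ : ℂ), ζ.im < 0 → F ζ = L ζ := by
          filter_upwards [hU.mem_nhds hτ₀.1] with ζ hζ
          exact hFL ζ hζ
        obtain ⟨r, hr, h3⟩ := h.sq_eq (h1 _ hτ₀.1) h2
        refine ⟨T ∩ ball τ₀ r, inter_mem self_mem_nhdsWithin
          (nhdsWithin_le_nhds (ball_mem_nhds _ hr)), ?_⟩
        rw [ae_iff] at h3
        refine measure_mono_null ?_ h3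
        rintro τ ⟨h4, h5⟩
        simp only [Set.mem_ofPred_eq, Classical.not_imp]
        exact ⟨by simpa [Real.dist_eq] using h5, h4.2⟩
      rw [ae_iff]
      refine measure_mono_null ?_ h1
      intro τ hτ
      simp only [Set.mem_ofPred_eq, Classical.not_imp] at hτ
      exact hτ
  · rintro ⟨K, hK, hKl⟩
    have hKa : ∀ ζ ∈ U, AnalyticAt ℂ K ζ := fun ζ hζ => hK.analyticAt (hU.mem_nhds hζ)
    have hLa : ∀ ζ : ℂ, ζ.im < 0 → AnalyticAt ℂ L ζ ∧ L ζ ≠ 0 := by
      intro ζ h1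
      have h2 : AnalyticAt ℂ (fun z => A z * Complex.exp (gg a z)) ζ := by
        refine (hA ζ h1).1.mul (AnalyticAt.cexp ?_)
        exact (gg_diff h.D0 h.ha).analyticAt
          ((isOpen_lt continuous_im continuous_const).mem_nhds h1)
      refine ⟨h2.congr ?_, ?_⟩
      · filter_upwards [(isOpen_lt continuous_im continuous_const).mem_nhds h1] with z hz
        exact (h.eqL z hz).symm
      · rw [h.eqL ζ h1]
        exact mul_ne_zero (hA ζ h1).2 (Complex.exp_ne_zero _)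
    refine ⟨ext L K, ?_, ?_⟩
    · intro ζ hζ
      refine DifferentiableAt.differentiableWithinAt ?_
      rcases lt_trichotomy ζ.im 0 with h1 | h1 | h1
      · refine (hLa ζ h1).1.differentiableAt.congr_of_eventuallyEq ?_
        filter_upwards [(isOpen_lt continuous_im continuous_const).mem_nhds h1] with z hz
        have hz' : z.im < 0 := hz
        unfold ext
        rw [if_pos hz']
      · have h2 : ζ = ((ζ.re : ℝ) : ℂ) := by
          apply Complex.ext <;> simp [h1]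
        obtain ⟨b, Y, hbY⟩ := hp ζ.re
        have hKa' : AnalyticAt ℂ K ((ζ.re : ℝ) : ℂ) := by
          rw [← h2]
          exact hKa ζ hζ
        have hKm : MeromorphicAt K ((ζ.re : ℝ) : ℂ) := hKa'.meromorphicAt
        have hKn : NearR ζ.re fun τ => K τ = ((lam τ ^ 2 : ℝ) : ℂ) := by
          have h3 : NearR ζ.re fun τ => (τ : ℂ) ∈ U := by
            refine NearR.of_nhds ?_
            rw [← h2]
            exact hU.mem_nhds hζ
          exact (h3.and (NearR.of_ae hKl)).mono fun τ h4 => h4.2 h4.1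
        obtain ⟨m, F, hF, hFm, hKo, hFL⟩ := local_crit h hbY hKm hKn
        have h3 := ext_eq h hKm hKn hF hFm hFL
        -- the order is nonnegative
        have h4 : 0 ≤ m := by
          have h5 := hKa'.meromorphicOrderAt_nonneg
          rw [hKo] at h5
          have h6 : (0 : ℤ) ≤ 2 * m := by exact_mod_cast h5
          omega
        obtain ⟨g, hg, hg0, hge⟩ := (meromorphicOrderAt_eq_int_iff hF).1 hFm
        lift m to ℕ using h4
        set F₁ : ℂ → ℂ := fun z => (z - ((ζ.re : ℝ) : ℂ)) ^ m * g z with hF₁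
        have hF₁a : AnalyticAt ℂ F₁ ((ζ.re : ℝ) : ℂ) :=
          ((analyticAt_id.sub analyticAt_const).pow m).mul hg
        have h7 : ∀ᶠ z in 𝓝[≠] ((ζ.re : ℝ) : ℂ), ext L K z = F₁ z := by
          filter_upwards [h3, hge] with z h8 h9
          rw [h8, h9, smul_eq_mul, zpow_natCast]
        have h8 : ext L K ((ζ.re : ℝ) : ℂ) = F₁ ((ζ.re : ℝ) : ℂ) := by
          unfold ext
          rw [if_neg (by simp), if_neg (by simp)]
          refine Tendsto.limUnder_eq ?_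
          refine (hF₁a.continuousAt.tendsto.comp (tendsto_below ζ.re)).congr' ?_
          have h9 : Tendsto (fun ε : ℝ => ((ζ.re : ℝ) : ℂ) - I * ε) (𝓝[>] 0)
              (𝓝[≠] ((ζ.re : ℝ) : ℂ)) := by
            refine tendsto_nhdsWithin_iff.2 ⟨tendsto_below ζ.re, ?_⟩
            filter_upwards [self_mem_nhdsWithin] with ε hε h10
            have hε' : 0 < ε := hε
            have h11 : ((ζ.re : ℝ) : ℂ) - I * ε = ((ζ.re : ℝ) : ℂ) := h10
            have h12 := congrArg Complex.im h11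
            simp at h12
            linarith
          filter_upwards [h9.eventually h7, self_mem_nhdsWithin] with ε h10 hε
          have hε' : 0 < ε := hε
          simp only [Function.comp_apply]
          rw [← h10]
          unfold ext
          rw [if_pos (by simpa using hε')]
        rw [h2]
        refine hF₁a.differentiableAt.congr_of_eventuallyEq ?_
        have h9 := eventually_nhdsWithin_iff.1 h7
        filter_upwards [h9] with z hz
        by_cases h10 : z = ((ζ.re : ℝ) : ℂ)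
        · rw [h10, h8]
        · exact hz h10
      · have h2 := hLa ((starRingEnd ℂ) ζ) (by simpa using h1)
        have h3 : AnalyticAt ℂ (rf L) ζ := rf_analyticAt h2.1
        have h4 : rf L ζ ≠ 0 := by
          unfold rf
          simpa using h2.2
        refine ((hKa ζ hζ).div h3 h4).differentiableAt.congr_of_eventuallyEq ?_
        filter_upwards [(isOpen_lt continuous_const continuous_im).mem_nhds h1] with z hz
        have hz' : 0 < z.im := hz
        unfold ext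
        rw [if_neg (not_lt.2 hz'.le), if_pos hz']
        rfl
    · intro ζ _ h1
      unfold ext
      rw [if_pos h1]

end

end Pool.Agent.R385.MC
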