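import Pool.Agent.R385.MC.Mot

/-!
# The comparison with the zeta function and the main theorems
-/

set_option autoImplicit false

namespace Pool.Agent.R385.MC

open Complex Filter Topology MeasureTheory Metric Finset Pool.Agent.W350.Edge Polynomial

/-- The Euler factors of the zeta function. -/
noncomputable def BZ (_ : ℕ) : ℂ[X] := 1 - X

lemma BZ_eval (p : ℕ) (z : ℂ) : (BZ p).eval z = 1 - z := by
  unfold BZ
  simp

lemma BZ_good : Good 0 1 BZ ∅ := by
  intro p _ _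
  refine ⟨fun _ => 1, fun _ => by simp, fun z => ?_⟩
  rw [BZ_eval]
  simp

lemma BZ_ne (p : ℕ) (_ : p.Prime) : BZ p ≠ 0 := by
  intro h
  have h1 := BZ_eval p 0
  rw [h] at h1
  simp at h1

/-- `(s - 1) ζ(s)` is holomorphic at `1`. -/
lemma zeta_res : ∃ W : ℂ → ℂ, AnalyticAt ℂ W 1 ∧ W 1 = 1 ∧
    ∀ s, s ≠ 1 → W s = (s - 1) * riemannZeta s := by
  classical
  refine ⟨Function.update (fun s => (s - 1) * riemannZeta s) 1 1, ?_, ?_, ?_⟩
  · refine Complex.analyticAt_of_differentiable_on_punctured_nhds_of_continuousAt ?_ ?_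
    · filter_upwards [self_mem_nhdsWithin] with z hz
      have hz' : z ≠ 1 := hz
      have h1 : DifferentiableAt ℂ (fun s => (s - 1) * riemannZeta s) z :=
        ((differentiableAt_id.sub_const 1)).mul (differentiableAt_riemannZeta hz')
      refine h1.congr_of_eventuallyEq ?_
      filter_upwards [isOpen_ne.mem_nhds hz'] with y hy
      exact Function.update_of_ne hy _ _
    · rw [continuousAt_update_same]
      exact riemannZeta_residue_one
  · simp
  · intro s hs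
    exact Function.update_of_ne hs _ _

/-- The comparison function. -/
lemma zeta_piece (τ₀ : ℝ) : ∃ b Y, Piece b Y τ₀ := by
  obtain ⟨W, hW, hW1, hWe⟩ := zeta_res
  set a₁ : ℕ → ℂ := aa (tt 1 0 BZ ∅) (0 : ℤ) ∅ with ha₁
  have ha₁b : ∀ p, ‖a₁ p‖ ≤ 1 := fun p => by
    have h1 := norm_aa (tt_WB (N := 1) (w := 0) (B := BZ) (S := ∅)) p
    rw [Nat.cast_one] at h1
    exact h1
  have hdec := mot_dec BZ_good BZ_ne
  set A := AA (tt 1 0 BZ ∅) ∅ BZ 0 with hA
  have hAa : AnalyticAt ℂ A 0 ∧ A 0 ≠ 0 := AA_analytic (by simp) (by simp)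
  refine ⟨fun p => a₁ p * Complex.exp (I * τ₀ * Real.log p),
    fun ζ => W (1 + I * (ζ - τ₀)) * (I * A (ζ - τ₀))⁻¹, ?_, ?_, ?_, ?_⟩
  · intro p
    rw [norm_mul, Complex.norm_exp]
    have h1 : (I * (τ₀ : ℂ) * ((Real.log p : ℝ) : ℂ)).re = 0 := by
      have : I * (τ₀ : ℂ) * ((Real.log p : ℝ) : ℂ) = ((τ₀ * Real.log p : ℝ) : ℂ) * I := by
        push_cast
        ring
      rw [this, Complex.re_ofReal_mul]
      simp
    rw [h1, Real.exp_zero, mul_one]
    exact ha₁b p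
  · have h1 : AnalyticAt ℂ (fun ζ : ℂ => W (1 + I * (ζ - τ₀))) τ₀ := by
      refine AnalyticAt.comp_of_eq (g := W) (f := fun ζ : ℂ => 1 + I * (ζ - τ₀)) hW ?_ ?_
      · fun_prop
      · simp
    have h2 : AnalyticAt ℂ (fun ζ : ℂ => A (ζ - τ₀)) τ₀ := by
      refine AnalyticAt.comp_of_eq (g := A) (f := fun ζ : ℂ => ζ - τ₀) hAa.1 ?_ ?_
      · fun_prop
      · simp
    refine h1.mul ((analyticAt_const.mul h2).inv ?_)
    simp [hAa.2]
  · simp [hW1, hAa.2]
  · refine Eventually.of_forall fun ζ him => ?_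
    have him' : (ζ - τ₀).im < 0 := by simpa using him
    have h1 : gg (fun p => a₁ p * Complex.exp (I * τ₀ * Real.log p)) ζ = gg a₁ (ζ - τ₀) := by
      unfold gg
      refine tsum_congr fun n => ?_
      have h2 : cf (fun p => a₁ p * Complex.exp (I * τ₀ * Real.log p)) n =
          cf a₁ n * Complex.exp (I * τ₀ * Real.log n) := by
        unfold cf
        split_ifs
        · ring
        · simp
      rw [h2, mul_assoc, ← Complex.exp_add]
      congr 2
      ring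
    rw [h1]
    have h2 : LFun BZ (eg 0 (ζ - τ₀)) = A (ζ - τ₀) * Complex.exp (gg a₁ (ζ - τ₀)) :=
      hdec.eqL _ him'
    have h3 : eg 0 (ζ - τ₀) = 1 + I * (ζ - τ₀) := by
      unfold eg
      simp
    have hre : 1 < (1 + I * (ζ - τ₀)).re := by
      rw [← h3, eg_re]
      simp only [Int.cast_zero, zero_div, zero_add]
      linarith
    have h4 : LFun BZ (eg 0 (ζ - τ₀)) = riemannZeta (1 + I * (ζ - τ₀)) := by
      rw [h3]
      unfold LFun factor
      simp_rw [BZ_eval]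
      exact riemannZeta_eulerProduct_tprod hre
    have hne : ζ - τ₀ ≠ 0 := by
      intro h5
      rw [h5] at him'
      simp at him'
    have hne1 : 1 + I * (ζ - τ₀) ≠ 1 := by
      intro h5
      have h6 : I * (ζ - τ₀) = 0 := by linear_combination h5
      rcases mul_eq_zero.1 h6 with h7 | h7
      · exact I_ne_zero h7
      · exact hne h7
    have hAne : A (ζ - τ₀) ≠ 0 := (AA_analytic (S := ∅) him'.le (by simp)).2
    show Complex.exp (gg a₁ (ζ - τ₀)) =
      W (1 + I * (ζ - τ₀)) * (I * A (ζ - τ₀))⁻¹ * (ζ - τ₀)⁻¹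
    rw [hWe _ hne1]
    rw [h4] at h2
    rw [h2]
    have hI := I_ne_zero
    field_simp
    ring

/-! ### The theorems in the variable `s` -/

lemma eg_conj (w : ℤ) (ζ : ℂ) :
    eg w ((starRingEnd ℂ) ζ) = (w : ℂ) + 2 - (starRingEnd ℂ) (eg w ζ) := by
  unfold eg
  simp only [map_add, map_div₀, map_intCast, map_one, map_mul, Complex.conj_I, map_ofNat]
  ring

/-- The inverse of `eg`. -/
noncomputable def ge (w : ℤ) (s : ℂ) : ℂ := -I * (s - ((w : ℂ) / 2 + 1))

lemma eg_ge (w : ℤ) (s : ℂ) : eg w (ge w s) = s := by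
  unfold eg ge
  linear_combination (-(s - ((w : ℂ) / 2 + 1))) * Complex.I_mul_I

lemma ge_eg (w : ℤ) (ζ : ℂ) : ge w (eg w ζ) = ζ := by
  unfold eg ge
  linear_combination (-ζ) * Complex.I_mul_I

lemma ge_analytic (w : ℤ) (s : ℂ) : AnalyticAt ℂ (ge w) s := by
  unfold ge
  fun_prop

lemma eg_analytic (w : ℤ) (ζ : ℂ) : AnalyticAt ℂ (eg w) ζ := (eg_diff w).analyticAt ζ

lemma edge_eg (w : ℤ) (τ : ℝ) : edge w τ = eg w τ := by rw [edge_eq, eg_real]

lemma ge_edge (w : ℤ) (τ : ℝ) : ge w (edge w τ) = τ := by rw [edge_eg, ge_eg]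

lemma ge_im (w : ℤ) (s : ℂ) : (ge w s).im < 0 ↔ (w : ℝ) / 2 + 1 < s.re := by
  have h1 := eg_re w (ge w s)
  rw [eg_ge] at h1
  rw [h1]
  constructor <;> intro h <;> linarith

lemma deriv_ge (w : ℤ) (s : ℂ) : deriv (ge w) s ≠ 0 := by
  have h1 : HasDerivAt (ge w) (-I * 1) s := by
    unfold ge
    exact ((hasDerivAt_id s).sub_const _).const_mul _
  rw [h1.deriv]
  simp

lemma deriv_eg (w : ℤ) (s : ℂ) : deriv (eg w) s ≠ 0 := by
  have h1 : HasDerivAt (eg w) (I * 1) s := by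
    unfold eg
    exact ((hasDerivAt_id s).const_mul _).const_add _
  rw [h1.deriv]
  simp

section

variable {w : ℤ} {N : ℕ} {B : ℕ → ℂ[X]}

lemma exists_good (h : IsEuler w N B) : ∃ S : Finset ℕ, Good w N B S := by
  obtain ⟨P, hP⟩ := eventually_atTop.1 h.1
  refine ⟨range P, fun p hp hpS => hP p ?_ hp⟩
  simpa using hpS

theorem main_ae (h : IsEuler w N B) : ∀ᵐ τ : ℝ, 0 < modulus w B τ ∧
    Tendsto (fun x : ℕ => ∏ p ∈ Nat.primesBelow x, ‖factor B p (edge w τ)‖) atTop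
      (𝓝 (modulus w B τ)) := by
  obtain ⟨S, hS⟩ := exists_good h
  exact modulus_lim hS h.2

theorem main_mer (h : IsEuler w N B) {U : Set ℂ} (hU : IsSymm w U) :
    (∃ F : ℂ → ℂ, MeromorphicOn F U ∧ ∀ s ∈ U, (w : ℝ) / 2 + 1 < s.re → F s = LFun B s) ↔
    (∃ K : ℂ → ℂ, MeromorphicOn K U ∧
      ∀ᵐ τ : ℝ, edge w τ ∈ U → K (edge w τ) = (modulus w B τ : ℂ) ^ 2) := by
  obtain ⟨S, hS⟩ := exists_good h
  have hd := mot_dec hS h.2
  have hUo : IsOpen (eg w ⁻¹' U) := hU.1.preimage (eg_diff w).continuous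
  have hUs : ∀ ζ ∈ eg w ⁻¹' U, (starRingEnd ℂ) ζ ∈ eg w ⁻¹' U := by
    intro ζ hζ
    show eg w ((starRingEnd ℂ) ζ) ∈ U
    rw [eg_conj]
    exact hU.2 _ hζ
  have hg := hd.global_iff zeta_piece hUo hUs
  constructor
  · rintro ⟨F, hF, hFL⟩
    obtain ⟨K, hK, hKl⟩ := hg.1 ⟨F ∘ eg w, fun ζ hζ =>
      (hF _ hζ).comp_analyticAt (eg_analytic w ζ), fun ζ hζ him => hFL _ hζ (by
        rw [eg_re]; linarith)⟩
    refine ⟨K ∘ ge w, fun s hs => ?_, ?_⟩
    · refine MeromorphicAt.comp_analyticAt (hK (ge w s) ?_) (ge_analytic w s)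
      show eg w (ge w s) ∈ U
      rwa [eg_ge]
    · filter_upwards [hKl] with τ h1 h2
      rw [Function.comp_apply, ge_edge, h1 (by rw [edge_eg] at h2; exact h2)]
      push_cast
      rfl
  · rintro ⟨K, hK, hKl⟩
    obtain ⟨F, hF, hFL⟩ := hg.2 ⟨K ∘ eg w, fun ζ hζ =>
      (hK _ hζ).comp_analyticAt (eg_analytic w ζ), by
        filter_upwards [hKl] with τ h1 h2
        have h3 : edge w τ ∈ U := by rw [edge_eg]; exact h2
        have h4 := h1 h3
        rw [edge_eg] at h4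
        rw [Function.comp_apply, h4]
        push_cast
        rfl⟩
    refine ⟨F ∘ ge w, fun s hs => ?_, fun s hs hre => ?_⟩
    · refine MeromorphicAt.comp_analyticAt (hF (ge w s) ?_) (ge_analytic w s)
      show eg w (ge w s) ∈ U
      rwa [eg_ge]
    · have h1 := hFL (ge w s) (by show eg w (ge w s) ∈ U; rwa [eg_ge]) ((ge_im w s).2 hre)
      rw [Function.comp_apply, h1, eg_ge]

theorem main_hol (h : IsEuler w N B)
    (hpole : ∀ p : ℕ, p.Prime → ∀ s : ℂ, (w : ℝ) / 2 + 1 < s.re →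
      (B p).eval ((p : ℂ) ^ (-s)) ≠ 0) {U : Set ℂ} (hU : IsSymm w U) :
    (∃ F : ℂ → ℂ, DifferentiableOn ℂ F U ∧
      ∀ s ∈ U, (w : ℝ) / 2 + 1 < s.re → F s = LFun B s) ↔
    (∃ K : ℂ → ℂ, DifferentiableOn ℂ K U ∧
      ∀ᵐ τ : ℝ, edge w τ ∈ U → K (edge w τ) = (modulus w B τ : ℂ) ^ 2) := by
  obtain ⟨S, hS⟩ := exists_good h
  have hd := mot_dec hS h.2
  have hUo : IsOpen (eg w ⁻¹' U) := hU.1.preimage (eg_diff w).continuous
  have hUs : ∀ ζ ∈ eg w ⁻¹' U, (starRingEnd ℂ) ζ ∈ eg w ⁻¹' U := by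
    intro ζ hζ
    show eg w ((starRingEnd ℂ) ζ) ∈ U
    rw [eg_conj]
    exact hU.2 _ hζ
  have hg := hd.global_diff zeta_piece hUo hUs (fun ζ hζ => AA_analytic hζ.le
    fun p _ hp => hpole p hp _ (by rw [eg_re]; linarith))
  constructor
  · rintro ⟨F, hF, hFL⟩
    obtain ⟨K, hK, hKl⟩ := hg.1 ⟨F ∘ eg w,
      hF.comp (eg_diff w).differentiableOn (fun ζ hζ => hζ), fun ζ hζ him => hFL _ hζ (by
        rw [eg_re]; linarith)⟩
    refine ⟨K ∘ ge w, hK.comp (fun s _ => (ge_analytic w s).differentiableAt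
      |>.differentiableWithinAt) (fun s hs => ?_), ?_⟩
    · show eg w (ge w s) ∈ U
      rwa [eg_ge]
    · filter_upwards [hKl] with τ h1 h2
      rw [Function.comp_apply, ge_edge, h1 (by rw [edge_eg] at h2; exact h2)]
      push_cast
      rfl
  · rintro ⟨K, hK, hKl⟩
    obtain ⟨F, hF, hFL⟩ := hg.2 ⟨K ∘ eg w,
      hK.comp (eg_diff w).differentiableOn (fun ζ hζ => hζ), by
        filter_upwards [hKl] with τ h1 h2
        have h3 : edge w τ ∈ U := by rw [edge_eg]; exact h2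
        have h4 := h1 h3
        rw [edge_eg] at h4
        rw [Function.comp_apply, h4]
        push_cast
        rfl⟩
    refine ⟨F ∘ ge w, hF.comp (fun s _ => (ge_analytic w s).differentiableAt
      |>.differentiableWithinAt) (fun s hs => ?_), fun s hs hre => ?_⟩
    · show eg w (ge w s) ∈ U
      rwa [eg_ge]
    · have h1 := hFL (ge w s) (by show eg w (ge w s) ∈ U; rwa [eg_ge]) ((ge_im w s).2 hre)
      rw [Function.comp_apply, h1, eg_ge]

theorem main_loc (h : IsEuler w N B) (τ₀ : ℝ) (m : ℤ) :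
    (∃ F : ℂ → ℂ, MeromorphicAt F (edge w τ₀) ∧ meromorphicOrderAt F (edge w τ₀) = m ∧
      ∀ᶠ s in 𝓝 (edge w τ₀), (w : ℝ) / 2 + 1 < s.re → F s = LFun B s) ↔
    (∃ K : ℂ → ℂ, MeromorphicAt K (edge w τ₀) ∧
      meromorphicOrderAt K (edge w τ₀) = (2 * m : ℤ) ∧
      ∃ δ : ℝ, 0 < δ ∧ ∀ᵐ τ : ℝ, |τ - τ₀| < δ → K (edge w τ) = (modulus w B τ : ℂ) ^ 2) := by
  obtain ⟨S, hS⟩ := exists_good h
  have hd := mot_dec hS h.2
  obtain ⟨b, Y, hbY⟩ := zeta_piece τ₀
  have hg := hd.local_iff hbY m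
  have hge : ge w (edge w τ₀) = τ₀ := ge_edge w τ₀
  constructor
  · rintro ⟨F, hF, hFm, hFL⟩
    rw [edge_eg] at hF hFm hFL
    obtain ⟨K, hK, hKm, δ, hδ, hKl⟩ := hg.1 ⟨F ∘ eg w, hF.comp_analyticAt (eg_analytic w τ₀), by
      rw [meromorphicOrderAt_comp_of_deriv_ne_zero (eg_analytic w τ₀) (deriv_eg w τ₀)]
      exact hFm, by
        filter_upwards [(eg_diff w).continuous.continuousAt.eventually hFL] with ζ h1 him
        exact h1 (by rw [eg_re]; linarith)⟩
    refine ⟨K ∘ ge w, ?_, ?_, δ, hδ, ?_⟩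
    · refine MeromorphicAt.comp_analyticAt ?_ (ge_analytic w _)
      rw [hge]
      exact hK
    · rw [meromorphicOrderAt_comp_of_deriv_ne_zero (ge_analytic w _) (deriv_ge w _), hge]
      exact hKm
    · filter_upwards [hKl] with τ h1 h2
      rw [Function.comp_apply, ge_edge, h1 h2]
      push_cast
      rfl
  · rintro ⟨K, hK, hKm, δ, hδ, hKl⟩
    rw [edge_eg] at hK hKm
    obtain ⟨F, hF, hFm, hFL⟩ := hg.2 ⟨K ∘ eg w, hK.comp_analyticAt (eg_analytic w τ₀), by
      rw [meromorphicOrderAt_comp_of_deriv_ne_zero (eg_analytic w τ₀) (deriv_eg w τ₀)]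
      exact hKm, δ, hδ, by
        filter_upwards [hKl] with τ h1 h2
        have h3 := h1 h2
        rw [edge_eg] at h3
        rw [Function.comp_apply, h3]
        push_cast
        rfl⟩
    refine ⟨F ∘ ge w, ?_, ?_, ?_⟩
    · refine MeromorphicAt.comp_analyticAt ?_ (ge_analytic w _)
      rw [hge]
      exact hF
    · rw [meromorphicOrderAt_comp_of_deriv_ne_zero (ge_analytic w _) (deriv_ge w _), hge]
      exact hFm
    · have h1 : Tendsto (ge w) (𝓝 (edge w τ₀)) (𝓝 (τ₀ : ℂ)) := by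
        have := (ge_analytic w (edge w τ₀)).continuousAt.tendsto
        rwa [hge] at this
      filter_upwards [h1.eventually hFL] with s h2 hre
      rw [Function.comp_apply, h2 ((ge_im w s).2 hre), eg_ge]

end

end Pool.Agent.R385.MC
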