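import Pool.Agent.R385.MC.Eul
import Pool.Agent.R385.MC.Glob

/-!
# The L-function of a motive
-/

set_option autoImplicit false

namespace Pool.Agent.R385.MC

open Complex Filter Topology MeasureTheory Metric Finset Pool.Agent.W350.Edge Polynomial

/-- The point `w/2 + 1 + iζ`. -/
noncomputable def eg (w : ℤ) (ζ : ℂ) : ℂ := (w : ℂ) / 2 + 1 + I * ζ

lemma eg_re (w : ℤ) (ζ : ℂ) : (eg w ζ).re = (w : ℝ) / 2 + 1 - ζ.im := by
  unfold eg
  have h1 : ((w : ℂ) / 2).re = (w : ℝ) / 2 := by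
    have : (w : ℂ) / 2 = (((w : ℝ) / 2 : ℝ) : ℂ) := by push_cast; rfl
    rw [this, Complex.ofReal_re]
  simp only [Complex.add_re, h1, Complex.one_re, Complex.mul_re, Complex.I_re, Complex.I_im]
  ring

lemma eg_real (w : ℤ) (τ : ℝ) : eg w τ = sp w τ := by
  unfold eg sp
  push_cast
  ring

lemma edge_eq (w : ℤ) (τ : ℝ) : edge w τ = sp w τ := by
  unfold edge sp
  push_cast
  ring

lemma eg_eq (w : ℤ) (ζ : ℂ) : eg w ζ = sp w 0 + I * ζ := by
  unfold eg sp
  push_cast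
  ring

lemma eg_diff (w : ℤ) : Differentiable ℂ (eg w) := by
  unfold eg
  fun_prop

/-- The factor `A` of the decomposition. -/
noncomputable def AA (t : ℕ → ℕ → ℂ) (S : Finset ℕ) (B : ℕ → ℂ[X]) (w : ℤ) (ζ : ℂ) : ℂ :=
  (∏ p ∈ S, BBf S B (eg w ζ) p) * Complex.exp (∑' p, RR t S p (eg w ζ))

open Classical in
/-- The power sums of the eigenvalues. -/
noncomputable def tt (N : ℕ) (w : ℤ) (B : ℕ → ℂ[X]) (S : Finset ℕ) (p m : ℕ) : ℂ :=
  if h : (p.Prime ∧ p ∉ S) ∧ ∃ α : Fin N → ℂ, (∀ j, ‖α j‖ = (p : ℝ) ^ ((w : ℝ) / 2)) ∧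
    ∀ z : ℂ, (B p).eval z = ∏ j, (1 - α j * z) then ∑ j, h.2.choose j ^ m else 0

section

variable {w : ℤ} {N : ℕ} {B : ℕ → ℂ[X]} {S : Finset ℕ}

/-- The condition on the good primes. -/
def Good (w : ℤ) (N : ℕ) (B : ℕ → ℂ[X]) (S : Finset ℕ) : Prop :=
  ∀ p : ℕ, p.Prime → p ∉ S → ∃ α : Fin N → ℂ, (∀ j, ‖α j‖ = (p : ℝ) ^ ((w : ℝ) / 2)) ∧
    ∀ z : ℂ, (B p).eval z = ∏ j, (1 - α j * z)

lemma tt_WB : WB (tt N w B S) w S N := by
  intro p hp hpS m
  unfold tt
  split_ifs with h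
  · have h1 := h.2.choose_spec.1
    refine (norm_sum_le_of_le (n := fun _ => ((p : ℝ) ^ ((w : ℝ) / 2)) ^ (m + 1)) _
      fun j _ => ?_).trans ?_
    · rw [norm_pow, h1]
    · rw [Finset.sum_const, Finset.card_univ, Fintype.card_fin, nsmul_eq_mul]
  · rw [norm_zero]
    positivity

lemma fac_eq_factor (hS : Good w N B S) {p : ℕ} (hp : p.Prime) {s : ℂ}
    (hs : (w : ℝ) / 2 < s.re) : fac (tt N w B S) S B s p = factor B p s := by
  unfold fac factor
  split_ifs with h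
  · rfl
  · have h1 := hS p hp h
    have h2 : (p.Prime ∧ p ∉ S) ∧ ∃ α : Fin N → ℂ, (∀ j, ‖α j‖ = (p : ℝ) ^ ((w : ℝ) / 2)) ∧
      ∀ z : ℂ, (B p).eval z = ∏ j, (1 - α j * z) := ⟨⟨hp, h⟩, h1⟩
    rw [exp_logF hp h2.2.choose h2.2.choose_spec.1 (tt N w B S) (fun m => ?_) hs,
      h2.2.choose_spec.2]
    unfold tt
    rw [dif_pos h2]

lemma cexp_analytic (w : ℤ) {p : ℕ} (hp : p.Prime) (ζ : ℂ) :
    AnalyticAt ℂ (fun ζ => (B p).eval ((p : ℂ) ^ (-(eg w ζ)))) ζ := by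
  have hp0 : (p : ℂ) ≠ 0 := by exact_mod_cast hp.ne_zero
  have h1 : Differentiable ℂ fun ζ => (B p).eval ((p : ℂ) ^ (-(eg w ζ))) := by
    have h2 : Differentiable ℂ fun ζ => (p : ℂ) ^ (-(eg w ζ)) :=
      Differentiable.const_cpow (eg_diff w).neg (Or.inl hp0)
    exact (B p).differentiable.comp h2
  exact h1.analyticAt ζ

/-- The local factor does not vanish identically. -/
lemma factor_ne (hB : ∀ p : ℕ, p.Prime → B p ≠ 0) {p : ℕ} (hp : p.Prime) (ζ₀ : ℂ) :
    ∀ᶠ ζ in 𝓝[≠] ζ₀, (B p).eval ((p : ℂ) ^ (-(eg w ζ))) ≠ 0 := by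
  rcases (cexp_analytic (B := B) w hp ζ₀).eventually_eq_zero_or_eventually_ne_zero with h | h
  · exfalso
    have h1 : AnalyticOnNhd ℂ (fun ζ => (B p).eval ((p : ℂ) ^ (-(eg w ζ)))) Set.univ :=
      fun ζ _ => cexp_analytic w hp ζ
    have h2 := h1.eqOn_zero_of_preconnected_of_eventuallyEq_zero isPreconnected_univ
      (Set.mem_univ ζ₀) h
    have h3 := countable_zeros hp (w : ℝ) (hB p hp)
    have h4 : {τ : ℝ | (B p).eval ((p : ℂ) ^ (-sp w τ)) = 0} = Set.univ := by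
      ext τ
      simp only [Set.mem_ofPred_eq, Set.mem_univ, iff_true]
      have h5 := h2 (Set.mem_univ (τ : ℂ))
      rw [← eg_real]
      exact h5
    rw [h4] at h3
    exact not_countable (α := ℝ) (Set.countable_univ_iff.1 h3)
  · exact h

lemma BBf_meromorphic (hB : ∀ p : ℕ, p.Prime → B p ≠ 0) (p : ℕ) (ζ : ℂ) :
    MeromorphicAt (fun ζ => BBf S B (eg w ζ) p) ζ ∧
      ∀ᶠ z in 𝓝[≠] ζ, BBf S B (eg w z) p ≠ 0 := by
  by_cases h : p.Prime ∧ p ∈ S
  · have h1 : (fun ζ => BBf S B (eg w ζ) p) =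
        fun ζ => ((B p).eval ((p : ℂ) ^ (-(eg w ζ))))⁻¹ := by
      funext z
      unfold BBf
      rw [if_pos h]
    refine ⟨?_, ?_⟩
    · rw [h1]
      exact (cexp_analytic w h.1 ζ).meromorphicAt.inv
    · filter_upwards [factor_ne hB h.1 ζ] with z hz
      unfold BBf
      rw [if_pos h]
      exact inv_ne_zero hz
  · have h1 : (fun ζ => BBf S B (eg w ζ) p) = fun _ => 1 := by
      funext z
      unfold BBf
      rw [if_neg h]
    refine ⟨?_, ?_⟩
    · rw [h1]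
      exact analyticAt_const.meromorphicAt
    · refine Eventually.of_forall fun z => ?_
      unfold BBf
      rw [if_neg h]
      exact one_ne_zero

lemma RR_analytic {ζ : ℂ} (hζ : ζ.im ≤ 0) :
    AnalyticAt ℂ (fun ζ => Complex.exp (∑' p, RR (tt N w B S) S p (eg w ζ))) ζ := by
  have h1 := diff_RR (tt_WB (N := N) (w := w) (B := B) (S := S))
  have hopen : IsOpen {s : ℂ | (w : ℝ) / 2 + 3 / 4 < s.re} :=
    isOpen_lt continuous_const continuous_re
  have h2 : AnalyticAt ℂ (fun s => ∑' p, RR (tt N w B S) S p s) (eg w ζ) := by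
    refine h1.analyticAt (hopen.mem_nhds ?_)
    show (w : ℝ) / 2 + 3 / 4 < (eg w ζ).re
    rw [eg_re]
    linarith
  have h3 : AnalyticAt ℂ (fun ζ => ∑' p, RR (tt N w B S) S p (eg w ζ)) ζ :=
    h2.comp_of_eq ((eg_diff w).analyticAt ζ) rfl
  exact h3.cexp

lemma AA_meromorphic (hB : ∀ p : ℕ, p.Prime → B p ≠ 0) {ζ : ℂ} (hζ : ζ.im ≤ 0) :
    MeromorphicAt (AA (tt N w B S) S B w) ζ ∧
      meromorphicOrderAt (AA (tt N w B S) S B w) ζ ≠ ⊤ := by
  have h1 : MeromorphicAt (fun ζ => ∏ p ∈ S, BBf S B (eg w ζ) p) ζ :=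
    MeromorphicAt.fun_prod fun p _ => (BBf_meromorphic hB p ζ).1
  have h2 : MeromorphicAt (AA (tt N w B S) S B w) ζ := h1.mul (RR_analytic hζ).meromorphicAt
  refine ⟨h2, (meromorphicOrderAt_ne_top_iff_eventually_ne_zero h2).2 ?_⟩
  have h3 : ∀ᶠ z in 𝓝[≠] ζ, ∀ p ∈ S, BBf S B (eg w z) p ≠ 0 := by
    rw [eventually_all_finset]
    exact fun p _ => (BBf_meromorphic hB p ζ).2
  filter_upwards [h3] with z hz
  exact mul_ne_zero (prod_ne_zero_iff.2 hz) (Complex.exp_ne_zero _)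

lemma AA_analytic {ζ : ℂ} (hζ : ζ.im ≤ 0)
    (hne : ∀ p ∈ S, p.Prime → (B p).eval ((p : ℂ) ^ (-(eg w ζ))) ≠ 0) :
    AnalyticAt ℂ (AA (tt N w B S) S B w) ζ ∧ AA (tt N w B S) S B w ζ ≠ 0 := by
  constructor
  · refine AnalyticAt.mul ?_ (RR_analytic hζ)
    refine Finset.analyticAt_fun_prod _ fun p hp => ?_
    by_cases h : p.Prime ∧ p ∈ S
    · have h1 : (fun ζ => BBf S B (eg w ζ) p) =
          fun ζ => ((B p).eval ((p : ℂ) ^ (-(eg w ζ))))⁻¹ := by
        funext z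
        unfold BBf
        rw [if_pos h]
      rw [h1]
      exact (cexp_analytic w h.1 ζ).inv (hne p hp h.1)
    · have h1 : (fun ζ => BBf S B (eg w ζ) p) = fun _ => 1 := by
        funext z
        unfold BBf
        rw [if_neg h]
      rw [h1]
      exact analyticAt_const
  · refine mul_ne_zero (prod_ne_zero_iff.2 fun p hp => ?_) (Complex.exp_ne_zero _)
    unfold BBf
    split_ifs with h
    · exact inv_ne_zero (hne p hp h.1)
    · exact one_ne_zero

lemma gg_eq_tsum (a : ℕ → ℂ) (ζ : ℂ) :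
    gg a ζ = ∑' n : ℕ, Complex.exp (-(I * ζ) * Real.log n) * term a 0 n := by
  unfold gg
  refine tsum_congr fun n => ?_
  rw [term_eq]
  simp [mul_comm]

/-- The Euler product in the half-plane of absolute convergence. -/
lemma euler_half (hS : Good w N B S) {ζ : ℂ} (hζ : ζ.im < 0) :
    HasProd (fun p : Nat.Primes => factor B p (eg w ζ))
      (AA (tt N w B S) S B w ζ * Complex.exp (gg (aa (tt N w B S) w S) ζ)) := by
  have h1 := euler_eq (tt_WB (N := N) (w := w) (B := B) (S := S)) B 0 (I * ζ) (by simpa using hζ)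
  rw [← eg_eq] at h1
  have h2 : (∏ p ∈ S, BBf S B (eg w ζ) p) *
        Complex.exp (∑' n : ℕ, Complex.exp (-(I * ζ) * Real.log n) *
          term (aa (tt N w B S) w S) 0 n + ∑' p : ℕ, RR (tt N w B S) S p (eg w ζ)) =
      AA (tt N w B S) S B w ζ * Complex.exp (gg (aa (tt N w B S) w S) ζ) := by
    unfold AA
    rw [gg_eq_tsum, Complex.exp_add]
    ring
  rw [h2] at h1
  refine h1.congr_fun fun p => ?_
  refine (fac_eq_factor hS p.2 ?_).symm
  rw [eg_re]
  linarith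

/-- The partial products on the edge. -/
lemma partial_lim (hS : Good w N B S) {τ : ℝ}
    (hτ : Tendsto (ps (aa (tt N w B S) w S) τ) atTop (𝓝 (bv (aa (tt N w B S) w S) τ))) :
    Tendsto (fun x : ℕ => ∏ p ∈ Nat.primesBelow x, factor B p (edge w τ)) atTop
      (𝓝 (AA (tt N w B S) S B w τ * Complex.exp (bv (aa (tt N w B S) w S) τ))) := by
  have ht := tt_WB (N := N) (w := w) (B := B) (S := S)
  have hmem : (w : ℝ) / 2 + 1 ≤ (sp w τ).re := by rw [sp_re]
  have h1 : Summable fun p : ℕ => RR (tt N w B S) S p (sp w τ) :=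
    Summable.of_norm_bounded (RR_summable_bound N) fun p => RR_bound ht p hmem
  have h2 := h1.hasSum.tendsto_sum_nat
  have h3 := (BBf_hasProd (S := S) B (sp w τ)).tendsto_prod_nat
  have h4 := h3.mul ((Complex.continuous_exp.tendsto _).comp (hτ.add h2))
  have h5 : AA (tt N w B S) S B w τ * Complex.exp (bv (aa (tt N w B S) w S) τ) =
      (∏ p ∈ S, BBf S B (sp w τ) p) * Complex.exp (bv (aa (tt N w B S) w S) τ +
        ∑' p : ℕ, RR (tt N w B S) S p (sp w τ)) := by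
    unfold AA
    rw [eg_real, Complex.exp_add]
    ring
  rw [h5]
  refine h4.congr fun x => ?_
  refine (partial_eq ht B τ x).symm.trans ?_
  rw [edge_eq]
  refine prod_congr rfl fun p hp => ?_
  refine fac_eq_factor hS (Nat.prime_of_mem_primesBelow hp) ?_
  rw [sp_re]
  linarith

/-- **The decomposition.** -/
theorem mot_dec (hS : Good w N B S) (hB : ∀ p : ℕ, p.Prime → B p ≠ 0) :
    Dec (fun ζ => LFun B (eg w ζ)) (modulus w B) (aa (tt N w B S) w S) N
      (AA (tt N w B S) S B w) where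
  D0 := Nat.cast_nonneg _
  ha := norm_aa tt_WB
  mer := fun ζ hζ => (AA_meromorphic hB hζ).1
  ord := fun ζ hζ => (AA_meromorphic hB hζ).2
  eqL := fun ζ hζ => (euler_half hS hζ).tprod_eq
  eqlam := by
    filter_upwards [bv_ae (norm_aa (tt_WB (N := N) (w := w) (B := B) (S := S)))] with τ hτ
    have h1 := (partial_lim hS hτ).norm
    rw [norm_mul, Complex.norm_exp] at h1
    unfold modulus
    refine Tendsto.limUnder_eq (h1.congr fun x => ?_)
    rw [norm_prod]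

/-- The modulus is the limit of the partial products almost everywhere. -/
theorem modulus_lim (hS : Good w N B S) (hB : ∀ p : ℕ, p.Prime → B p ≠ 0) :
    ∀ᵐ τ : ℝ, 0 < modulus w B τ ∧
      Tendsto (fun x : ℕ => ∏ p ∈ Nat.primesBelow x, ‖factor B p (edge w τ)‖) atTop
        (𝓝 (modulus w B τ)) := by
  have h1 : ∀ᵐ τ : ℝ, 0 < modulus w B τ := by
    set T : Set ℝ := {τ : ℝ | ¬ 0 < modulus w B τ} with hT
    have h2 : volume T = 0 := by
      refine measure_null_of_locally_null T fun τ₀ _ => ?_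
      obtain ⟨r, hr, h3⟩ := (mot_dec hS hB).pos τ₀
      refine ⟨T ∩ ball τ₀ r, inter_mem self_mem_nhdsWithin
        (nhdsWithin_le_nhds (ball_mem_nhds _ hr)), ?_⟩
      rw [ae_iff] at h3
      refine measure_mono_null ?_ h3
      rintro τ ⟨h4, h5⟩
      simp only [Set.mem_ofPred_eq, Classical.not_imp]
      exact ⟨by simpa [Real.dist_eq] using h5, h4⟩
    rw [ae_iff]
    exact h2
  filter_upwards [h1, (mot_dec hS hB).eqlam,
    bv_ae (norm_aa (tt_WB (N := N) (w := w) (B := B) (S := S)))] with τ h2 h3 h4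
  refine ⟨h2, ?_⟩
  have h5 := (partial_lim hS h4).norm
  rw [norm_mul, Complex.norm_exp, ← h3] at h5
  exact h5.congr fun x => by rw [norm_prod]

end

end Pool.Agent.R385.MC
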