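import Mathlib

/-!
# Morera across the real line and the reflection principle
-/

set_option autoImplicit false

namespace Pool.Agent.R385.MC

open Complex Filter Topology MeasureTheory Metric Set
open scoped Interval

/-- Cauchy's theorem for a rectangle whose interior does not meet the real axis. -/
lemma rect_zero {f : ℂ → ℂ} {c : ℂ} {r : ℝ} (hc : ContinuousOn f (ball c r))
    (hd : ∀ z ∈ ball c r, z.im ≠ 0 → DifferentiableAt ℂ f z) (x₁ x₂ y₁ y₂ : ℝ)
    (hR : [[x₁, x₂]] ×ℂ [[y₁, y₂]] ⊆ ball c r) (h0 : (0 : ℝ) ∉ Ioo (min y₁ y₂) (max y₁ y₂)) :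
    (∫ x : ℝ in x₁..x₂, f (x + y₁ * I)) - (∫ x : ℝ in x₁..x₂, f (x + y₂ * I)) +
      I • (∫ y : ℝ in y₁..y₂, f (x₂ + y * I)) - I • (∫ y : ℝ in y₁..y₂, f (x₁ + y * I)) = 0 := by
  have h := integral_boundary_rect_eq_zero_of_continuousOn_of_differentiableOn f
    (x₁ + y₁ * I) (x₂ + y₂ * I) ?_ ?_
  · simpa using h
  · refine hc.mono ?_
    simpa using hR
  · intro z hz
    have hz' : z ∈ Ioo (min x₁ x₂) (max x₁ x₂) ×ℂ Ioo (min y₁ y₂) (max y₁ y₂) := by
      simpa using hz
    rw [mem_reProdIm] at hz'
    refine (hd z (hR ?_) ?_).differentiableWithinAt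
    · rw [mem_reProdIm]
      exact ⟨Ioo_subset_Icc_self hz'.1, Ioo_subset_Icc_self hz'.2⟩
    · intro h1
      exact h0 (h1 ▸ hz'.2)

/-- A continuous function on a disc which is holomorphic off the real axis is conservative. -/
lemma conservative_of_line {f : ℂ → ℂ} {c : ℂ} {r : ℝ} (hc : ContinuousOn f (ball c r))
    (hd : ∀ z ∈ ball c r, z.im ≠ 0 → DifferentiableAt ℂ f z) :
    IsConservativeOn f (ball c r) := by
  intro z w hzw
  rw [← add_eq_zero_iff_eq_neg, wedgeIntegral_add_wedgeIntegral_eq]
  have hR : [[z.re, w.re]] ×ℂ [[z.im, w.im]] ⊆ ball c r := hzw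
  by_cases h0 : (0 : ℝ) ∈ Ioo (min z.im w.im) (max z.im w.im)
  · have hmem : (0 : ℝ) ∈ [[z.im, w.im]] := Ioo_subset_Icc_self h0
    have hs1 : [[z.im, 0]] ⊆ [[z.im, w.im]] := uIcc_subset_uIcc_left hmem
    have hs2 : [[0, w.im]] ⊆ [[z.im, w.im]] := uIcc_subset_uIcc_right hmem
    have h1 := rect_zero hc hd z.re w.re z.im 0
      (fun u hu => hR (by rw [mem_reProdIm] at hu ⊢; exact ⟨hu.1, hs1 hu.2⟩))
      (fun h => by
        rcases le_total z.im 0 with h2 | h2
        · rw [max_eq_right h2] at h
          exact lt_irrefl _ h.2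
        · rw [min_eq_right h2] at h
          exact lt_irrefl _ h.1)
    have h2 := rect_zero hc hd z.re w.re 0 w.im
      (fun u hu => hR (by rw [mem_reProdIm] at hu ⊢; exact ⟨hu.1, hs2 hu.2⟩))
      (fun h => by
        rcases le_total w.im 0 with h2 | h2
        · rw [max_eq_left h2] at h
          exact lt_irrefl _ h.2
        · rw [min_eq_left h2] at h
          exact lt_irrefl _ h.1)
    have hint : ∀ x : ℝ, x ∈ [[z.re, w.re]] → ∀ y₁ y₂ : ℝ, [[y₁, y₂]] ⊆ [[z.im, w.im]] →
        IntervalIntegrable (fun y : ℝ => f (x + y * I)) volume y₁ y₂ := by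
      intro x hx y₁ y₂ hy
      refine ContinuousOn.intervalIntegrable ?_
      refine hc.comp (by fun_prop) ?_
      intro y hyy
      refine hR ?_
      rw [mem_reProdIm]
      simp only [add_re, ofReal_re, mul_re, I_re, mul_zero, ofReal_im, I_im, mul_one, sub_self,
        add_zero, add_im, mul_im, zero_add]
      exact ⟨hx, hy hyy⟩
    have h3 : ∀ x : ℝ, x ∈ [[z.re, w.re]] → ∫ y : ℝ in z.im..w.im, f (x + y * I) =
        (∫ y : ℝ in z.im..0, f (x + y * I)) + ∫ y : ℝ in (0 : ℝ)..w.im, f (x + y * I) := by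
      intro x hx
      exact (intervalIntegral.integral_add_adjacent_intervals (hint x hx _ _ hs1)
        (hint x hx _ _ hs2)).symm
    rw [h3 _ right_mem_uIcc, h3 _ left_mem_uIcc]
    simp only [smul_eq_mul] at h1 h2 ⊢
    linear_combination h1 + h2
  · exact rect_zero hc hd _ _ _ _ hR h0

/-- **Removability of the real axis.** -/
theorem diff_of_line {f : ℂ → ℂ} {c : ℂ} {r : ℝ} (hc : ContinuousOn f (ball c r))
    (hd : ∀ z ∈ ball c r, z.im ≠ 0 → DifferentiableAt ℂ f z) :
    DifferentiableOn ℂ f (ball c r) :=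
  ((conservative_of_line hc hd).isExactOn_ball hc).differentiableOn isOpen_ball

/-- The reflection of a function which is purely imaginary on the real axis. -/
theorem schwarz {Q : ℂ → ℂ} {c r : ℝ}
    (hc : ContinuousOn Q {z | z ∈ ball (c : ℂ) r ∧ z.im ≤ 0})
    (hd : ∀ z ∈ ball (c : ℂ) r, z.im < 0 → DifferentiableAt ℂ Q z)
    (hr : ∀ x : ℝ, (x : ℂ) ∈ ball (c : ℂ) r → (Q x).re = 0) :
    ∃ R : ℂ → ℂ, DifferentiableOn ℂ R (ball c r) ∧
      ∀ z ∈ ball (c : ℂ) r, z.im ≤ 0 → R z = Q z := by
  classical
  set R : ℂ → ℂ := fun z => if z.im ≤ 0 then Q z else -(starRingEnd ℂ) (Q ((starRingEnd ℂ) z))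
    with hR
  have hconj : ∀ z ∈ ball (c : ℂ) r, (starRingEnd ℂ) z ∈ ball (c : ℂ) r := by
    intro z hz
    rw [mem_ball, dist_eq_norm] at hz ⊢
    have h1 : (starRingEnd ℂ) z - c = (starRingEnd ℂ) (z - c) := by simp
    rw [h1, RCLike.norm_conj]
    exact hz
  refine ⟨R, diff_of_line ?_ ?_, ?_⟩
  · -- continuity
    have h1 : ContinuousOn R ({z | z ∈ ball (c : ℂ) r ∧ z.im ≤ 0} ∪
        {z | z ∈ ball (c : ℂ) r ∧ 0 ≤ z.im}) := by
      intro z hz
      have hz' : z ∈ ball (c : ℂ) r := by
        rcases hz with h | h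
        · exact h.1
        · exact h.1
      refine ContinuousWithinAt.union ?_ ?_
      · by_cases h2 : z.im ≤ 0
        · refine (hc z ⟨hz', h2⟩).congr (fun y hy => ?_) ?_
          · simp only [hR, if_pos hy.2]
          · simp only [hR, if_pos h2]
        · have h3 : z ∉ closure {z | z ∈ ball (c : ℂ) r ∧ z.im ≤ 0} := by
            intro h4
            have h5 : closure {z : ℂ | z ∈ ball (c : ℂ) r ∧ z.im ≤ 0} ⊆ {z : ℂ | z.im ≤ 0} :=
              closure_minimal (fun y hy => hy.2) (isClosed_le continuous_im continuous_const)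
            exact h2 (h5 h4)
          exact continuousWithinAt_of_notMem_closure h3
      · by_cases h2 : 0 ≤ z.im
        · have h4 : ContinuousWithinAt (fun z => -(starRingEnd ℂ) (Q ((starRingEnd ℂ) z)))
              {z | z ∈ ball (c : ℂ) r ∧ 0 ≤ z.im} z := by
            have h5 : ContinuousOn (fun z => -(starRingEnd ℂ) (Q ((starRingEnd ℂ) z)))
                {z | z ∈ ball (c : ℂ) r ∧ 0 ≤ z.im} := by
              refine ContinuousOn.neg ?_
              refine (continuous_conj.comp_continuousOn ?_)
              refine hc.comp continuous_conj.continuousOn ?_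
              intro y hy
              exact ⟨hconj y hy.1, by simpa using hy.2⟩
            exact h5 z ⟨hz', h2⟩
          have heq : ∀ y : ℂ, y ∈ ball (c : ℂ) r → 0 ≤ y.im →
              R y = -(starRingEnd ℂ) (Q ((starRingEnd ℂ) y)) := by
            intro y hy1 hy2
            by_cases h6 : y.im ≤ 0
            · have h7 : y.im = 0 := le_antisymm h6 hy2
              have h8 : y = ((y.re : ℝ) : ℂ) := by
                apply Complex.ext <;> simp [h7]
              have h9 : (Q y).re = 0 := by
                have := hr y.re (by rw [← h8]; exact hy1)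
                rw [← h8] at this
                exact this
              simp only [hR, if_pos h6]
              have h10 : (starRingEnd ℂ) y = y := by
                rw [h8]
                simp
              rw [h10]
              apply Complex.ext <;> simp [h9]
            · simp only [hR, if_neg h6]
          refine h4.congr (fun y hy => heq y hy.1 hy.2) (heq z hz' h2)
        · have h3 : z ∉ closure {z | z ∈ ball (c : ℂ) r ∧ 0 ≤ z.im} := by
            intro h4
            have h5 : closure {z : ℂ | z ∈ ball (c : ℂ) r ∧ 0 ≤ z.im} ⊆ {z : ℂ | 0 ≤ z.im} :=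
              closure_minimal (fun y hy => hy.2) (isClosed_le continuous_const continuous_im)
            exact h2 (h5 h4)
          exact continuousWithinAt_of_notMem_closure h3
    refine h1.mono fun z hz => ?_
    rcases le_total z.im 0 with h | h
    · exact Or.inl ⟨hz, h⟩
    · exact Or.inr ⟨hz, h⟩
  · -- differentiability off the axis
    intro z hz h0
    rcases lt_or_gt_of_ne h0 with h | h
    · refine (hd z hz h).congr_of_eventuallyEq ?_
      filter_upwards [(isOpen_lt continuous_im continuous_const).mem_nhds h] with y hy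
      have hy' : y.im < 0 := hy
      simp only [hR, if_pos hy'.le]
    · have h1 : DifferentiableAt ℂ (fun z => (starRingEnd ℂ) (Q ((starRingEnd ℂ) z))) z := by
        have h2 : DifferentiableAt ℂ Q ((starRingEnd ℂ) z) :=
          hd _ (hconj z hz) (by simpa using h)
        have h3 := h2.conj_conj
        simpa [Function.comp_def] using h3
      refine h1.neg.congr_of_eventuallyEq ?_
      filter_upwards [(isOpen_lt continuous_const continuous_im).mem_nhds h] with y hy
      have hy' : 0 < y.im := hy
      simp only [hR, if_neg (not_le.2 hy'), Pi.neg_apply]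
  · intro z _ h
    simp only [hR, if_pos h]

end Pool.Agent.R385.MC
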