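import Pool.Agent.W350.Edge4
import Pool.Agent.W350.Edge5
import Pool.Agent.R385.MC.Refl

/-!
# Prime sums on the edge: the primitive and its boundary values
-/

set_option autoImplicit false

namespace Pool.Agent.R385.MC

open Complex Filter Topology MeasureTheory Metric Finset Pool.Agent.W350.Edge

lemma sum_inv_le2 {F : Finset ℕ} {K : ℕ} (hK : 1 ≤ K)
    (hF : ∀ p ∈ F, p.Prime ∧ K ≤ lg p) (g : ℕ → ℝ) (hg : ∀ l, 0 ≤ g l) :
    ∑ p ∈ F, (1 : ℝ) / p * g (lg p) ≤ ∑ l ∈ F.image lg, CC / l * g l := by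
  have hmaps : ∀ p ∈ F, lg p ∈ F.image lg := fun p hp => mem_image_of_mem _ hp
  rw [← sum_fiberwise_of_maps_to hmaps]
  refine sum_le_sum fun l hl => ?_
  obtain ⟨q, hq, hql⟩ := mem_image.1 hl
  have hKl : 1 ≤ l := by
    rw [← hql]
    exact hK.trans (hF q hq).2
  have h1 : ∑ p ∈ F with lg p = l, (1 : ℝ) / p * g (lg p) =
      (∑ p ∈ F with lg p = l, (1 : ℝ) / p) * g l := by
    rw [sum_mul]
    refine sum_congr rfl fun p hp => ?_
    rw [(mem_filter.1 hp).2]
  rw [h1]
  refine mul_le_mul_of_nonneg_right ?_ (hg l)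
  refine cheb _ l hKl fun p hp => ?_
  rw [mem_filter] at hp
  exact ⟨(hF p hp.1).1, hp.2⟩

/-- `∑_{l ≥ K} 1/l² ≤ 2/K`. -/
lemma sum_sq_inv (F : Finset ℕ) {K : ℕ} (hK : 1 ≤ K) (hF : ∀ l ∈ F, K ≤ l) :
    ∑ l ∈ F, (1 : ℝ) / (l : ℝ) ^ 2 ≤ 2 / K := by
  have hK0 : (0 : ℝ) < K := by exact_mod_cast hK
  have h1 : ∀ n : ℕ, K ≤ n → (1 : ℝ) / (n : ℝ) ^ 2 ≤ 2 / (n : ℝ) - 2 / ((n : ℝ) + 1) := by
    intro n hn
    have hn0 : (0 : ℝ) < n := by
      have : 0 < n := by omega
      exact_mod_cast this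
    have hn1 : (1 : ℝ) ≤ n := by
      have : 1 ≤ n := by omega
      exact_mod_cast this
    have h2 : 2 / (n : ℝ) - 2 / ((n : ℝ) + 1) = 2 / ((n : ℝ) * ((n : ℝ) + 1)) := by
      field_simp
      ring
    rw [h2, div_le_div_iff₀ (by positivity) (by positivity)]
    nlinarith
  have h2 : F ⊆ Ico K (F.sup id + 1) := by
    intro l hl
    rw [mem_Ico]
    refine ⟨hF l hl, ?_⟩
    have : l ≤ F.sup id := Finset.le_sup (f := id) hl
    omega
  have h3 : ∀ m, K ≤ m → ∑ n ∈ Ico K m, (2 / (n : ℝ) - 2 / ((n : ℝ) + 1)) =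
      2 / (K : ℝ) - 2 / (m : ℝ) := by
    intro m hm
    induction m, hm using Nat.le_induction with
    | base => simp
    | succ m hm ih =>
      rw [sum_Ico_succ_top hm, ih]
      push_cast
      ring
  calc ∑ l ∈ F, (1 : ℝ) / (l : ℝ) ^ 2 ≤ ∑ l ∈ Ico K (F.sup id + 1), (1 : ℝ) / (l : ℝ) ^ 2 :=
        sum_le_sum_of_subset_of_nonneg h2 fun _ _ _ => by positivity
    _ ≤ ∑ l ∈ Ico K (F.sup id + 1), (2 / (l : ℝ) - 2 / ((l : ℝ) + 1)) :=
        sum_le_sum fun l hl => h1 l (mem_Ico.1 hl).1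
    _ ≤ 2 / K := by
        rcases le_or_gt K (F.sup id + 1) with h | h
        · rw [h3 _ h]
          have : (0 : ℝ) ≤ 2 / ((F.sup id + 1 : ℕ) : ℝ) := by positivity
          linarith
        · rw [Ico_eq_empty (by omega), sum_empty]
          positivity

/-- The mean square of an arbitrary sum over large primes. -/
lemma mean_tail {F : Finset ℕ} {K : ℕ} (hK : 1 ≤ K)
    (hF : ∀ p ∈ F, p.Prime ∧ K ≤ lg p) (c : ℕ → ℂ) (M : ℝ) (hM : 0 ≤ M)
    (hc : ∀ p ∈ F, ‖c p‖ ≤ M / p) :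
    ∫ τ in (0 : ℝ)..1, ‖∑ p ∈ F, c p * Complex.exp (-(τ * (Real.log p : ℝ)) * Complex.I)‖ ^ 2 ≤
      144 * CC ^ 2 * M ^ 2 / K := by
  refine (gauss_mean F c (fun p => Real.log p)).trans ?_
  have hK0 : (0 : ℝ) < K := by exact_mod_cast hK
  set G := F.image lg with hG
  have hGK : ∀ l ∈ G, K ≤ l := by
    intro l hl
    obtain ⟨q, hq, hql⟩ := mem_image.1 hl
    rw [← hql]
    exact (hF q hq).2
  have h1 : ∑ p ∈ F, ∑ q ∈ F, ‖c p‖ * ‖c q‖ *
      Real.exp (-(Real.log p - Real.log q) ^ 2) ≤ M ^ 2 * (CC ^ 2 * 12 * (2 / K)) := by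
    calc ∑ p ∈ F, ∑ q ∈ F, ‖c p‖ * ‖c q‖ * Real.exp (-(Real.log p - Real.log q) ^ 2)
        ≤ ∑ p ∈ F, ∑ q ∈ F, (M / p) * (M / q) * Real.exp (1 - |(lg p : ℝ) - lg q|) := by
          refine sum_le_sum fun p hp => sum_le_sum fun q hq => ?_
          have h2 := kappa_le (hF p hp).1.one_le (hF q hq).1.one_le 0
          simp only [sub_zero] at h2
          have h3 := hc p hp
          have h4 := hc q hq
          have h5 : 0 ≤ M / (p : ℝ) := by positivity
          exact mul_le_mul (mul_le_mul h3 h4 (norm_nonneg _) h5) h2 (Real.exp_pos _).le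
            (by positivity)
      _ = M ^ 2 * ∑ p ∈ F, (1 : ℝ) / p * ∑ q ∈ F, (1 : ℝ) / q *
            Real.exp (1 - |(lg p : ℝ) - lg q|) := by
          simp_rw [mul_sum]
          refine sum_congr rfl fun p _ => sum_congr rfl fun q _ => ?_
          ring
      _ ≤ M ^ 2 * (CC ^ 2 * 12 * (2 / K)) := by
          refine mul_le_mul_of_nonneg_left ?_ (sq_nonneg M)
          have h6 : ∑ p ∈ F, (1 : ℝ) / p * ∑ q ∈ F, (1 : ℝ) / q *
              Real.exp (1 - |(lg p : ℝ) - lg q|) ≤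
              ∑ k ∈ G, CC / k * ∑ l ∈ G, CC / l * Real.exp (1 - |(k : ℝ) - l|) := by
            have h7 : ∀ p ∈ F, (1 : ℝ) / p * ∑ q ∈ F, (1 : ℝ) / q *
                Real.exp (1 - |(lg p : ℝ) - lg q|) ≤ (1 : ℝ) / p *
                (fun k : ℕ => ∑ l ∈ G, CC / l * Real.exp (1 - |(k : ℝ) - l|)) (lg p) := by
              intro p _
              refine mul_le_mul_of_nonneg_left ?_ (by positivity)
              exact sum_inv_le2 hK hF (fun l => Real.exp (1 - |(lg p : ℝ) - l|))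
                (fun _ => (Real.exp_pos _).le)
            refine (sum_le_sum h7).trans ?_
            refine sum_inv_le2 hK hF
              (fun k : ℕ => ∑ l ∈ G, CC / l * Real.exp (1 - |(k : ℝ) - l|)) (fun k => ?_)
            exact sum_nonneg fun l _ => mul_nonneg (div_nonneg CC_pos.le (Nat.cast_nonneg _))
              (Real.exp_pos _).le
          refine h6.trans ?_
          have h8 : ∀ k ∈ G, ∀ l ∈ G, CC / k * (CC / l * Real.exp (1 - |(k : ℝ) - l|)) ≤
              CC ^ 2 / 2 * ((1 / (k : ℝ) ^ 2) * Real.exp (1 - |(k : ℝ) - l|) +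
                (1 / (l : ℝ) ^ 2) * Real.exp (1 - |(l : ℝ) - k|)) := by
            intro k hk l hl
            rw [abs_sub_comm (l : ℝ) k]
            have h9 : CC / k * (CC / l * Real.exp (1 - |(k : ℝ) - l|)) =
                CC ^ 2 * (1 / (k : ℝ) * (1 / (l : ℝ))) * Real.exp (1 - |(k : ℝ) - l|) := by ring
            have h10 : 1 / (k : ℝ) * (1 / (l : ℝ)) ≤
                (1 / (k : ℝ) ^ 2 + 1 / (l : ℝ) ^ 2) / 2 := by
              have := sq_nonneg (1 / (k : ℝ) - 1 / (l : ℝ))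
              have h11 : 1 / (k : ℝ) ^ 2 = (1 / (k : ℝ)) ^ 2 := by ring
              have h12 : 1 / (l : ℝ) ^ 2 = (1 / (l : ℝ)) ^ 2 := by ring
              rw [h11, h12]
              nlinarith
            rw [h9]
            have h13 : 0 < Real.exp (1 - |(k : ℝ) - l|) := Real.exp_pos _
            have h14 : 0 ≤ CC ^ 2 := sq_nonneg _
            calc CC ^ 2 * (1 / (k : ℝ) * (1 / (l : ℝ))) * Real.exp (1 - |(k : ℝ) - l|)
                ≤ CC ^ 2 * ((1 / (k : ℝ) ^ 2 + 1 / (l : ℝ) ^ 2) / 2) *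
                  Real.exp (1 - |(k : ℝ) - l|) := by gcongr
              _ = _ := by ring
          have h9 : ∑ k ∈ G, CC / k * ∑ l ∈ G, CC / l * Real.exp (1 - |(k : ℝ) - l|) ≤
              CC ^ 2 / 2 * (∑ k ∈ G, ∑ l ∈ G, (1 / (k : ℝ) ^ 2) * Real.exp (1 - |(k : ℝ) - l|) +
                ∑ k ∈ G, ∑ l ∈ G, (1 / (l : ℝ) ^ 2) * Real.exp (1 - |(l : ℝ) - k|)) := by
            rw [← sum_add_distrib, mul_sum]
            refine sum_le_sum fun k hk => ?_
            rw [← sum_add_distrib, mul_sum, mul_sum]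
            exact sum_le_sum fun l hl => h8 k hk l hl
          refine h9.trans ?_
          have hcomm : ∑ k ∈ G, ∑ l ∈ G, (1 / (l : ℝ) ^ 2) * Real.exp (1 - |(l : ℝ) - k|) =
              ∑ l ∈ G, ∑ k ∈ G, (1 / (l : ℝ) ^ 2) * Real.exp (1 - |(l : ℝ) - k|) := sum_comm
          rw [hcomm]
          have h10 : ∑ k ∈ G, ∑ l ∈ G, (1 / (k : ℝ) ^ 2) * Real.exp (1 - |(k : ℝ) - l|) ≤
              12 * (2 / (K : ℝ)) := by
            calc ∑ k ∈ G, ∑ l ∈ G, (1 / (k : ℝ) ^ 2) * Real.exp (1 - |(k : ℝ) - l|)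
                ≤ ∑ k ∈ G, (1 / (k : ℝ) ^ 2) * 12 := by
                  refine sum_le_sum fun k _ => ?_
                  rw [← mul_sum]
                  exact mul_le_mul_of_nonneg_left (schur_row G k) (by positivity)
              _ = 12 * ∑ k ∈ G, 1 / (k : ℝ) ^ 2 := by rw [← sum_mul, mul_comm]
              _ ≤ 12 * (2 / K) :=
                  mul_le_mul_of_nonneg_left (sum_sq_inv G hK hGK) (by norm_num)
          have h14 : 0 ≤ CC ^ 2 := sq_nonneg _
          nlinarith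
  have h2 : 6 * (M ^ 2 * (CC ^ 2 * 12 * (2 / K))) = 144 * CC ^ 2 * M ^ 2 / K := by
    field_simp
    ring
  linarith

/-- The coefficients of the prime sum. -/
noncomputable def cf (a : ℕ → ℂ) (n : ℕ) : ℂ := if n.Prime then a n / n else 0

/-- The prime sum. -/
noncomputable def gg (a : ℕ → ℂ) (ζ : ℂ) : ℂ :=
  ∑' n : ℕ, cf a n * Complex.exp (-(I * ζ) * Real.log n)

/-- The terms of its primitive. -/
noncomputable def pt (a : ℕ → ℂ) (n : ℕ) (ζ : ℂ) : ℂ :=
  cf a n / (-(I * Real.log n)) * Complex.exp (-(I * ζ) * Real.log n)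

/-- Its primitive. -/
noncomputable def pp (a : ℕ → ℂ) (ζ : ℂ) : ℂ := ∑' n : ℕ, pt a n ζ

lemma norm_cf {a : ℕ → ℂ} {D : ℝ} (hD : 0 ≤ D) (ha : ∀ p, ‖a p‖ ≤ D) (n : ℕ) :
    ‖cf a n‖ ≤ D / n := by
  unfold cf
  split_ifs
  · rw [norm_div, Complex.norm_natCast]
    exact div_le_div_of_nonneg_right (ha n) (Nat.cast_nonneg _)
  · rw [norm_zero]
    positivity

lemma norm_ker (ζ : ℂ) (n : ℕ) :
    ‖Complex.exp (-(I * ζ) * Real.log n)‖ = Real.exp (ζ.im * Real.log n) := by
  rw [Complex.norm_exp]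
  congr 1
  rw [Complex.mul_re, Complex.ofReal_re, Complex.ofReal_im]
  simp

lemma norm_ker_le {ζ : ℂ} (hζ : ζ.im ≤ 0) (n : ℕ) :
    ‖Complex.exp (-(I * ζ) * Real.log n)‖ ≤ 1 := by
  rw [norm_ker, Real.exp_le_one_iff]
  exact mul_nonpos_of_nonpos_of_nonneg hζ (Real.log_natCast_nonneg n)

/-- The dominating series. -/
noncomputable def dom (n : ℕ) : ℝ := if n.Prime then 1 / (n * Real.log n) else 0

lemma summable_dom : Summable dom := by
  have h0 : ∀ n, 0 ≤ dom n := by
    intro n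
    unfold dom
    split_ifs
    · have := Real.log_natCast_nonneg n
      positivity
    · exact le_rfl
  have h1 : Summable fun n : ℕ => if 3 ≤ n then dom n else 0 := by
    refine summable_of_sum_le (c := CC * 2) (fun n => ?_) fun F => ?_
    · split_ifs
      · exact h0 n
      · exact le_rfl
    · have h2 : ∑ n ∈ F, (if 3 ≤ n then dom n else 0) ≤
          ∑ p ∈ F.filter (fun n => n.Prime ∧ 3 ≤ n), (1 : ℝ) / p * (1 / (lg p : ℝ)) := by
        rw [sum_filter]
        refine sum_le_sum fun n _ => ?_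
        by_cases h3 : n.Prime
        · by_cases h4 : 3 ≤ n
          · rw [if_pos h4, if_pos ⟨h3, h4⟩]
            unfold dom
            rw [if_pos h3, one_div_mul_one_div]
            have h5 : 1 ≤ lg n := by
              refine Nat.le_floor ?_
              rw [Nat.cast_one, Real.le_log_iff_exp_le (by exact_mod_cast h3.pos)]
              have := Real.exp_one_lt_d9
              have h6 : (3 : ℝ) ≤ n := by exact_mod_cast h4
              linarith
            have h6 : (0 : ℝ) < lg n := by exact_mod_cast h5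
            have h7 : (0 : ℝ) < n := by exact_mod_cast h3.pos
            refine one_div_le_one_div_of_le (by positivity) ?_
            exact mul_le_mul_of_nonneg_left (lg_le h3.one_le) h7.le
          · simp only [h4, and_false, if_false, le_refl]
        · have h5 : dom n = 0 := by
            unfold dom
            rw [if_neg h3]
          simp only [h5, h3, false_and, if_false, ite_self, le_refl]
      refine h2.trans ?_
      have hF : ∀ p ∈ F.filter (fun n => n.Prime ∧ 3 ≤ n), p.Prime ∧ 1 ≤ lg p := by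
        intro p hp
        rw [mem_filter] at hp
        refine ⟨hp.2.1, Nat.le_floor ?_⟩
        rw [Nat.cast_one, Real.le_log_iff_exp_le (by exact_mod_cast hp.2.1.pos)]
        have := Real.exp_one_lt_d9
        have h6 : (3 : ℝ) ≤ p := by exact_mod_cast hp.2.2
        linarith
      refine (sum_inv_le2 le_rfl hF (fun l => 1 / (l : ℝ)) (fun l => by positivity)).trans ?_
      calc ∑ l ∈ (F.filter (fun n => n.Prime ∧ 3 ≤ n)).image lg, CC / l * (1 / (l : ℝ))
          = CC * ∑ l ∈ (F.filter (fun n => n.Prime ∧ 3 ≤ n)).image lg, 1 / (l : ℝ) ^ 2 := by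
            rw [mul_sum]
            refine sum_congr rfl fun l _ => ?_
            ring
        _ ≤ CC * (2 / (1 : ℕ)) := by
            refine mul_le_mul_of_nonneg_left (sum_sq_inv _ le_rfl fun l hl => ?_) CC_pos.le
            obtain ⟨q, hq, hql⟩ := mem_image.1 hl
            rw [← hql]
            exact (hF q hq).2
        _ = CC * 2 := by norm_num
  refine (summable_nat_add_iff 3).1 (((summable_nat_add_iff 3).2 h1).congr fun n => ?_)
  rw [if_pos (by omega)]

lemma norm_pt_le {a : ℕ → ℂ} {D : ℝ} (hD : 0 ≤ D) (ha : ∀ p, ‖a p‖ ≤ D) {ζ : ℂ}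
    (hζ : ζ.im ≤ 0) (n : ℕ) : ‖pt a n ζ‖ ≤ D * dom n := by
  unfold pt dom cf
  split_ifs with hp
  · have h1 : 0 < Real.log n := Real.log_pos (by exact_mod_cast hp.one_lt)
    have h2 : (0 : ℝ) < n := by exact_mod_cast hp.pos
    rw [norm_mul, norm_div, norm_div, norm_neg, norm_mul, Complex.norm_I, one_mul,
      Complex.norm_real, Real.norm_of_nonneg h1.le, Complex.norm_natCast]
    calc ‖a n‖ / n / Real.log n * ‖Complex.exp (-(I * ζ) * Real.log n)‖
        ≤ D / n / Real.log n * 1 := by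
          have := ha n
          have := norm_ker_le hζ n
          gcongr
      _ = _ := by
          field_simp
  · simp

lemma pt_continuous (a : ℕ → ℂ) (n : ℕ) : Continuous (pt a n) := by
  unfold pt
  fun_prop

lemma pp_continuousOn {a : ℕ → ℂ} {D : ℝ} (hD : 0 ≤ D) (ha : ∀ p, ‖a p‖ ≤ D) :
    ContinuousOn (pp a) {ζ | ζ.im ≤ 0} := by
  unfold pp
  refine continuousOn_tsum (u := fun n => D * dom n) (fun n => (pt_continuous a n).continuousOn)
    (summable_dom.mul_left D) ?_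
  intro n ζ hζ
  exact norm_pt_le hD ha hζ n

lemma pt_hasDerivAt (a : ℕ → ℂ) (n : ℕ) (ζ : ℂ) :
    HasDerivAt (pt a n) (cf a n * Complex.exp (-(I * ζ) * Real.log n)) ζ := by
  by_cases hp : n.Prime
  · have h1 : 0 < Real.log n := Real.log_pos (by exact_mod_cast hp.one_lt)
    have h2 : HasDerivAt (fun ζ : ℂ => -(I * ζ) * Real.log n) (-(I * 1) * Real.log n) ζ :=
      (((hasDerivAt_id ζ).const_mul I).neg).mul_const _
    have h3 := (h2.cexp).const_mul (cf a n / (-(I * Real.log n)))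
    unfold pt
    refine h3.congr_deriv ?_
    have h4 : ((Real.log n : ℝ) : ℂ) ≠ 0 := by exact_mod_cast h1.ne'
    field_simp
  · have h1 : cf a n = 0 := by
      unfold cf
      rw [if_neg hp]
    have h2 : pt a n = fun _ => 0 := by
      funext ζ
      unfold pt
      rw [h1]
      simp
    rw [h2, h1, zero_mul]
    exact hasDerivAt_const _ _

lemma gg_summand_bound {a : ℕ → ℂ} {D : ℝ} (hD : 0 ≤ D) (ha : ∀ p, ‖a p‖ ≤ D) {ζ : ℂ} {δ : ℝ}
    (hζ : ζ.im ≤ -δ) (n : ℕ) :
    ‖cf a n * Complex.exp (-(I * ζ) * Real.log n)‖ ≤ D * (1 / (n : ℝ) ^ (1 + δ)) := by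
  rcases Nat.eq_zero_or_pos n with h0 | h0
  · subst h0
    have : cf a 0 = 0 := by simp [cf]
    rw [this, zero_mul, norm_zero]
    positivity
  have hn0 : (0 : ℝ) < n := by exact_mod_cast h0
  rw [norm_mul, norm_ker]
  have h1 : Real.exp (ζ.im * Real.log n) ≤ (n : ℝ) ^ (-δ) := by
    rw [Real.rpow_def_of_pos hn0]
    refine Real.exp_le_exp.2 ?_
    rw [mul_comm]
    exact mul_le_mul_of_nonneg_left hζ (Real.log_natCast_nonneg n)
  have h2 : 1 / (n : ℝ) ^ (1 + δ) = 1 / n * (n : ℝ) ^ (-δ) := by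
    rw [one_div, ← Real.rpow_neg hn0.le, one_div, ← Real.rpow_neg_one, ← Real.rpow_add hn0]
    congr 1
    ring
  rw [h2]
  calc ‖cf a n‖ * Real.exp (ζ.im * Real.log n) ≤ (D / n) * (n : ℝ) ^ (-δ) :=
        mul_le_mul (norm_cf hD ha n) h1 (Real.exp_pos _).le (by positivity)
    _ = _ := by ring

lemma gg_hasDeriv {a : ℕ → ℂ} {D : ℝ} (hD : 0 ≤ D) (ha : ∀ p, ‖a p‖ ≤ D) {ζ : ℂ}
    (hζ : ζ.im < 0) : HasDerivAt (pp a) (gg a ζ) ζ := by
  set δ := -ζ.im / 2 with hδ
  have hδ0 : 0 < δ := by rw [hδ]; linarith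
  set t : Set ℂ := {z : ℂ | z.im < -δ} with ht
  have hto : IsOpen t := isOpen_lt continuous_im continuous_const
  have htc : IsPreconnected t := by
    have : Convex ℝ t := by
      rw [ht]
      exact convex_halfSpace_im_lt _
    exact this.isPreconnected
  have hmem : ζ ∈ t := by
    show ζ.im < -δ
    rw [hδ]
    linarith
  unfold pp gg
  refine hasDerivAt_tsum_of_isPreconnected (u := fun n : ℕ => D * (1 / (n : ℝ) ^ (1 + δ)))
    (((Real.summable_one_div_nat_rpow).2 (by linarith)).mul_left D) hto htc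
    (fun n y _ => pt_hasDerivAt a n y) ?_ hmem ?_ hmem
  · intro n y hy
    exact gg_summand_bound hD ha (le_of_lt hy) n
  · refine Summable.of_norm_bounded (summable_dom.mul_left D) fun n => ?_
    exact norm_pt_le hD ha hζ.le n

lemma gg_diff {a : ℕ → ℂ} {D : ℝ} (hD : 0 ≤ D) (ha : ∀ p, ‖a p‖ ≤ D) :
    DifferentiableOn ℂ (gg a) {ζ | ζ.im < 0} := by
  have h1 : DifferentiableOn ℂ (pp a) {ζ : ℂ | ζ.im < 0} := fun ζ hζ =>
    (gg_hasDeriv hD ha hζ).differentiableAt.differentiableWithinAt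
  refine (h1.deriv (isOpen_lt continuous_im continuous_const)).congr fun ζ hζ => ?_
  exact (gg_hasDeriv hD ha hζ).deriv.symm

end Pool.Agent.R385.MC
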